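import Pool.Agent.Q223.RO.Stmts

set_option autoImplicit false

/-! MP_c09afc_pr: assembly of the blueprint. -/

namespace Pool.Agent.Q223.RO

open MeasureTheory Filter Topology Set

theorem lap_shift {d : ℕ} (F : V d → ℝ) (a x : V d) :
    Lap (fun x => F (x - a)) x = Lap F (x - a) := by
  unfold Lap
  refine Finset.sum_congr rfl fun i _ => ?_
  have h1 : x + Pi.single i 1 - a = x - a + Pi.single i 1 := by abel
  have h2 : x - Pi.single i 1 - a = x - a - Pi.single i 1 := by abel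
  simp only [h1, h2]

theorem P_int {d : ℕ} (i₀ : Fin d) (x : V d) : ∃ k : ℤ, P i₀ x = k := by
  refine ⟨∑ k ∈ Finset.range 6, (-1 : ℤ) ^ k * (Nat.choose 5 k : ℤ) *
    (if x = Pi.single i₀ (5 - 2 * (k : ℤ)) then 1 else 0), ?_⟩
  unfold P
  push_cast
  refine Finset.sum_congr rfl fun k _ => ?_
  split_ifs <;> simp

theorem assembly (hBin : TaskBin) (hNtwo : TaskNtwo) (hNthree : TaskNthree) (hNfour : TaskNfour)
    (hTrans : TaskTrans) (hF : TaskF) (hNonInt : TaskNonInt) (hSumm : TaskSumm) (hPhase : TaskPhase)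
    (hMeas : TaskMeas) (hFinal : TaskFinal) (hInv : TaskInv) (hNC : TaskNC) (hFin : TaskFin)
    (hFlipFin : TaskFlipFin) (hFlip : TaskFlip) (hConn : TaskConn) (hPar : TaskPar) (hSurg : TaskSurg)
    (hLeaf : TaskLeaf) (hSwap : TaskSwap) (hNonconst : TaskNonconst) (hSep : TaskSep)
    (hCond : TaskCond) :
    ∀ (d : ℕ), 3 ≤ d → ∀ (τ : V d → V d → V d), IsMech τ → ∀ (a : V d) (μ : Measure (Cfg d)),
      IsOWUSF μ → IsStat τ a μ → ∃ ν : Measure (Cfg d), IsStat τ a ν ∧ ν ≠ μ := by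
  intro d hd τ hτ a μ hμ hst
  obtain ⟨F0, hs, h0, hL⟩ := hF hNthree hNfour hTrans hBin hNtwo d ⟨0, by omega⟩ (by omega)
  obtain ⟨x0, hx0⟩ := hNonInt d ⟨0, by omega⟩ ⟨1, by omega⟩ (by simp) F0 hs hL
  set F : V d → ℝ := fun x => F0 (x - a) with hFdef
  have hFs : Summable F := hs.comp_injective (sub_left_injective)
  have hFa : F a = 0 := by simp [hFdef, h0]
  have hFl : ∀ x, ∃ k : ℤ, Lap F x = k := by
    intro x
    obtain ⟨k, hk⟩ := P_int (⟨0, by omega⟩ : Fin d) (x - a)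
    refine ⟨-k, ?_⟩
    rw [hFdef, lap_shift, hL, hk]
    push_cast
    ring
  have hFn : ∃ x, ∀ k : ℤ, F x ≠ k := ⟨x0 + a, fun k => by
    have := hx0 k
    simpa [hFdef] using this⟩
  obtain ⟨φ, hφ, hb⟩ := hPhase d τ hτ F hFl
  have hm : Summable (mF F) := hSumm d F hFs
  obtain ⟨y, z, z', hz, hz', hne⟩ := hNC d τ F φ (by omega) hτ hFs hφ hFn
  obtain ⟨B, z0, hB1, hB2, hz0, hpos⟩ := hLeaf hFin (hSurg hConn hPar) d μ y (by omega) hμ
  have hmeas : Measurable (Th φ) := hMeas d φ (mF F) hm hb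
  have hprob := hμ.prob
  have hflip : ∀ (w w' : V d) (B' : Finset (V d × V d)), Adj y w → Adj y w' → B ⊆ B' →
      (∀ e ∈ B', e.1 ≠ y) →
      μ.real {ρ | Has (insert (y, w) B') ρ} = μ.real {ρ | Has (insert (y, w') B') ρ} := by
    intro w w' B' hw hw' hBB hB'
    refine hFlip hFlipFin d μ hμ y w w' B' hw hw' hB' ?_
    intro x hx
    obtain ⟨e, he, h1, h2⟩ := hB2 x hx
    exact ⟨e, hBB he, h1, h2⟩
  have hposz : 0 < μ.real {ρ | Has (insert (y, z) B) ρ} := by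
    rw [hflip z z0 B hz hz0 (Finset.Subset.refl B) hB1]
    exact hpos
  have hswap := hSwap d μ y z z' B hprob hB1
    (fun B' hBB hB' => hflip z z' B' hz hz' hBB hB')
  have hnc := hNonconst d μ y z z' B φ (mF F) hprob hm hb hmeas hswap hposz hne
  obtain ⟨A, hA, hA0, hA1⟩ := hSep (Cfg d) μ (Th φ) hprob hmeas hnc
  refine hCond d τ a μ (Th φ) A hst hmeas hA ?_ hA0 hA1
  filter_upwards [hst.valid, hst.transient] with ρ hv ht
  exact hInv hFinal d τ a ρ F φ (mF F) hτ hFs hm hb hφ hFa hv ht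

end Pool.Agent.Q223.RO
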