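import Mathlib

set_option autoImplicit false

/-!
MP_c09afc_pr (rotor walk on `ℤ^d`, `d ≥ 3`: OWUSF is NOT the only infinite-step stationary measure).
Blueprint: prove `theorem taskX (hA : TaskA) ... : TaskX` (hypotheses = the tasks named in `deps`; here they are
already premises of the statement, so `theorem taskX : TaskX`) in `Pool/Agent/Q223/RO/TaskX.lean`,
namespace `Pool.Agent.Q223.RO`.

Idea: `F` summable on `ℤ^d` with integral Laplacian, `F a = 0`, not integer valued. Then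
`Th ρ = exp (2 π i ∑ₓ φ x (ρ x))` is unchanged by the rotor walk from `a`, and it is not constant under OWUSF
(flip the rotor at a leaf). Condition on `Th ∈ A`.
-/

namespace Pool.Agent.Q223.RO

open MeasureTheory Filter Topology Set

/-- vertices of the lattice -/
abbrev V (d : ℕ) : Type := Fin d → ℤ

/-- `x` and `y` are neighbours -/
def Adj {d : ℕ} (x y : V d) : Prop := ∃ i, y = x + Pi.single i 1 ∨ y = x - Pi.single i 1

/-- rotor configurations -/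
abbrev Cfg (d : ℕ) : Type := V d → V d

def Valid {d : ℕ} (ρ : Cfg d) : Prop := ∀ x, Adj x (ρ x)

/-- `τ x` is a permutation of the neighbours of `x` with a single orbit -/
def IsMech {d : ℕ} (τ : V d → V d → V d) : Prop :=
  ∀ x y, Adj x y → Adj x (τ x y) ∧ ∀ z, Adj x z → ∃ k : ℕ, (τ x)^[k] y = z

/-- position and rotors after `t` steps of the rotor walk from `a` -/
def walk {d : ℕ} (τ : V d → V d → V d) (a : V d) (ρ : Cfg d) : ℕ → V d × Cfg d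
  | 0 => (a, ρ)
  | t + 1 =>
    (τ (walk τ a ρ t).1 ((walk τ a ρ t).2 (walk τ a ρ t).1),
      Function.update (walk τ a ρ t).2 (walk τ a ρ t).1
        (τ (walk τ a ρ t).1 ((walk τ a ρ t).2 (walk τ a ρ t).1)))

/-- every vertex is visited finitely often -/
def Transient {d : ℕ} (τ : V d → V d → V d) (a : V d) (ρ : Cfg d) : Prop :=
  ∀ x, {t | (walk τ a ρ t).1 = x}.Finite

/-- the final rotor configuration -/
noncomputable def final {d : ℕ} (τ : V d → V d → V d) (a : V d) (ρ : Cfg d) : Cfg d :=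
  fun x => Classical.epsilon fun v => ∀ᶠ t in atTop, (walk τ a ρ t).2 x = v

/-- infinite-step stationary measures -/
structure IsStat {d : ℕ} (τ : V d → V d → V d) (a : V d) (μ : Measure (Cfg d)) : Prop where
  prob : IsProbabilityMeasure μ
  valid : ∀ᵐ ρ ∂μ, Valid ρ
  transient : ∀ᵐ ρ ∂μ, Transient τ a ρ
  stat : ∀ A, MeasurableSet A → μ (final τ a ⁻¹' A) = μ A

/-- spanning forests oriented to the complement of `Λ`: out-degree one in `Λ`, no oriented cycle -/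
def IsForest {d : ℕ} (Λ : Finset (V d)) (f : Cfg d) : Prop :=
  (∀ x, x ∉ Λ → f x = x) ∧ (∀ x ∈ Λ, Adj x (f x)) ∧ ∀ x ∈ Λ, ∀ n, 1 ≤ n → f^[n] x ≠ x

/-- the oriented edges `B` are in the forest -/
def Has {d : ℕ} (B : Finset (V d × V d)) (f : Cfg d) : Prop := ∀ e ∈ B, f e.1 = e.2

/-- probability of `B` under the uniform measure on the forests -/
noncomputable def pr {d : ℕ} (Λ : Finset (V d)) (B : Finset (V d × V d)) : ℝ :=
  ({f : Cfg d | IsForest Λ f ∧ Has B f}.ncard : ℝ) / ({f : Cfg d | IsForest Λ f}.ncard : ℝ)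

/-- oriented wired uniform spanning forest -/
structure IsOWUSF {d : ℕ} (μ : Measure (Cfg d)) : Prop where
  prob : IsProbabilityMeasure μ
  lim : ∀ Λ : ℕ → Finset (V d), Monotone Λ → (∀ x, ∃ n, x ∈ Λ n) → ∀ B : Finset (V d × V d),
    Tendsto (fun n => pr (Λ n) B) atTop (𝓝 (μ.real {ρ | Has B ρ}))

/-! ### the summable function `F` -/

/-- Laplacian -/
def Lap {d : ℕ} (F : V d → ℝ) (x : V d) : ℝ :=
  ∑ i, (F (x + Pi.single i 1) + F (x - Pi.single i 1) - 2 * F x)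

/-- `(S - S⁻¹)^5 δ₀`, `S` the shift in the direction `i₀` -/
noncomputable def P {d : ℕ} (i₀ : Fin d) (x : V d) : ℝ :=
  ∑ k ∈ Finset.range 6, (-1 : ℝ) ^ k * (Nat.choose 5 k : ℝ) *
    (if x = Pi.single i₀ (5 - 2 * (k : ℤ)) then 1 else 0)

/-- induction; hint: `C(n+2, (n+2)/2) ≤ 4 (m+1)/(m+2) ...`, treat even `n = 2m`, odd `n = 2m+1` with
`Nat.centralBinom`, `Nat.succ_mul_centralBinom_succ` -/
def TaskBin : Prop := ∀ n : ℕ, (n.choose (n / 2) : ℝ) ^ 2 * (n + 1) ≤ 4 ^ n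

/-- `(1+Q)^n (Q-1) = ∑ (C(n,k-1) - C(n,k)) Q^k`, and `∑ |C(n,k-1) - C(n,k)| = 2 C(n, n/2)` (unimodality);
or induction over `n` with a stronger statement -/
def TaskNtwo : Prop := ∀ (A : Type) [NormedRing A] [NormOneClass A] [NormedAlgebra ℝ A] (Q : A), ‖Q‖ ≤ 1 →
  ∀ n : ℕ, ‖(1 + Q) ^ n * (Q - 1)‖ ≤ 2 * (n.choose (n / 2) : ℝ)

/-- `n = 4 m + r`, four factors `((1+Q)/2)^m (Q-1)` of norm `≤ 2/√(m+1)` -/
def TaskNthree : Prop := TaskBin → TaskNtwo →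
  ∀ (A : Type) [NormedRing A] [NormOneClass A] [NormedAlgebra ℝ A] (Q : A), ‖Q‖ ≤ 1 →
    ∀ n : ℕ, ‖((1 / 2 : ℝ) • (1 + Q)) ^ n * (Q - 1) ^ 4‖ ≤ 256 / ((n : ℝ) + 1) ^ 2

/-- binomial theorem (Commute.add_pow), `1/(n+1)^2 ≤ 2/((n+1)(n+2))`,
`C(t,n)/((n+1)(n+2)) = C(t+2,n+2)/((t+1)(t+2))` -/
def TaskNfour : Prop := ∀ (A : Type) [NormedRing A] [NormOneClass A] [NormedAlgebra ℝ A] (a b E : A) (p K : ℝ),
  Commute a b → Commute b E → 0 < p → p ≤ 1 → 0 ≤ K → ‖b‖ ≤ 1 →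
  (∀ n : ℕ, ‖a ^ n * E‖ ≤ K / ((n : ℝ) + 1) ^ 2) →
  ∀ t : ℕ, ‖(p • a + (1 - p) • b) ^ t * E‖ ≤ 2 * K / (p ^ 2 * ((t : ℝ) + 1) ^ 2)

/-- composition with a bijection as an operator on `ℓ¹` -/
def TaskTrans : Prop := ∀ (W : Type) (e : W ≃ W),
  ∃ T : (lp (fun _ : W => ℝ) 1) →L[ℝ] (lp (fun _ : W => ℝ) 1),
    (∀ (f : lp (fun _ : W => ℝ) 1) (x : W), (T f : W → ℝ) x = f (e x)) ∧ ‖T‖ ≤ 1

/-- `F = (1/2d) ∑ₜ A^t D^5 δ₀` in `ℓ¹`, `A = (1/2d) ∑ (Sᵢ + Sᵢ⁻¹)`, `D = S - S⁻¹` (`S = S_{i₀}`);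
`A = p a + (1-p) b`, `p = 1/d`, `a = (S + S⁻¹)/2 = S⁻¹ (1+Q)/2`, `D = S⁻¹ (Q - 1)`, `Q = S²`; so
`‖A^t D^4‖ ≤ C/(t+1)²` by TaskNthree, TaskNfour (`b` = mean over the other directions). `(A-1) ∑ A^t D^5 = -D^5`.
Reflection in the direction `i₀` changes the sign of `F`, so `F 0 = 0` -/
def TaskF : Prop := TaskNthree → TaskNfour → TaskTrans → TaskBin → TaskNtwo →
  ∀ (d : ℕ) (i₀ : Fin d), 2 ≤ d → ∃ F : V d → ℝ, Summable F ∧ F 0 = 0 ∧ ∀ x, Lap F x = - P i₀ x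

/-- integer valued and summable: finite support; then `∑ₓ P x * h x = 0` for the harmonic function
`h x = exp (s * x i₀) * cos (b * x i₁)`, `i₁ ≠ i₀`, `cosh s + cos b = 2`, `s > 0` (summation by parts), but this sum is
`(exp s - exp (-s))^5` -/
def TaskNonInt : Prop := ∀ (d : ℕ) (i₀ i₁ : Fin d), i₀ ≠ i₁ → ∀ F : V d → ℝ, Summable F →
  (∀ x, Lap F x = - P i₀ x) → ∃ x, ∀ k : ℤ, F x ≠ k

/-! ### the invariant -/

/-- bound for the phases -/
def mF {d : ℕ} (F : V d → ℝ) (x : V d) : ℝ :=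
  ∑ i, (|F (x + Pi.single i 1) - F x| + |F (x - Pi.single i 1) - F x|)

def TaskSumm : Prop := ∀ (d : ℕ) (F : V d → ℝ), Summable F → Summable (mF F)

/-- the phases go with the values of `F` -/
def Step {d : ℕ} (τ : V d → V d → V d) (F : V d → ℝ) (φ : V d → V d → ℝ) : Prop :=
  ∀ x y, Adj x y → ∃ k : ℤ, φ x (τ x y) - φ x y + (F (τ x y) - F x) = k

/-- put `y₀ = x + e₀`, `φ x (τ^j y₀) = - ∑_{1 ≤ i ≤ j} (F (τ^i y₀) - F x)`, `0 ≤ j < 2d`; the sum over the whole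
cycle is `Lap F x`, an integer; `φ x y = 0` if `y` is not a neighbour (`τ x` is a cyclic permutation of the `2d`
neighbours) -/
def TaskPhase : Prop := ∀ (d : ℕ) (τ : V d → V d → V d), IsMech τ → ∀ F : V d → ℝ,
  (∀ x, ∃ k : ℤ, Lap F x = k) → ∃ φ : V d → V d → ℝ, Step τ F φ ∧ ∀ x y, |φ x y| ≤ mF F x

noncomputable def H {d : ℕ} (φ : V d → V d → ℝ) (ρ : Cfg d) : ℝ := ∑' x, φ x (ρ x)

noncomputable def Th {d : ℕ} (φ : V d → V d → ℝ) (ρ : Cfg d) : ℂ :=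
  Complex.exp (2 * Real.pi * Complex.I * (H φ ρ : ℂ))

/-- limit of finite sums -/
def TaskMeas : Prop := ∀ (d : ℕ) (φ : V d → V d → ℝ) (m : V d → ℝ), Summable m →
  (∀ x y, |φ x y| ≤ m x) → Measurable (Th φ)

/-- the rotor at `x` changes only when the walk is at `x` -/
def TaskFinal : Prop := ∀ (d : ℕ) (τ : V d → V d → V d) (a : V d) (ρ : Cfg d), Transient τ a ρ →
  ∀ x, ∀ᶠ t in atTop, (walk τ a ρ t).2 x = final τ a ρ x

/-- `exp (2 π i (H ρ_t + F X_t))` does not depend on `t`; `X_t → ∞`, so `F X_t → 0`;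
`tendsto_tsum_of_dominated_convergence` -/
def TaskInv : Prop := TaskFinal → ∀ (d : ℕ) (τ : V d → V d → V d) (a : V d) (ρ : Cfg d) (F : V d → ℝ)
  (φ : V d → V d → ℝ) (m : V d → ℝ), IsMech τ → Summable F → Summable m → (∀ x y, |φ x y| ≤ m x) → Step τ F φ →
  F a = 0 → Valid ρ → Transient τ a ρ → Th φ (final τ a ρ) = Th φ ρ

/-- otherwise `F z - F y` is an integer for all neighbours, so `F` is an integer as `F → 0` at infinity -/
def TaskNC : Prop := ∀ (d : ℕ) (τ : V d → V d → V d) (F : V d → ℝ) (φ : V d → V d → ℝ), 1 ≤ d → IsMech τ →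
  Summable F → Step τ F φ → (∃ x, ∀ k : ℤ, F x ≠ k) → ∃ y z z', Adj y z ∧ Adj y z' ∧
    Complex.exp (2 * Real.pi * Complex.I * ((φ y z' - φ y z : ℝ) : ℂ)) ≠ 1

/-! ### the forest -/

/-- `f x = x + e₀` on `Λ` is a forest -/
def TaskFin : Prop := ∀ (d : ℕ) (Λ : Finset (V d)), {f : Cfg d | IsForest Λ f}.Finite ∧
  (1 ≤ d → {f : Cfg d | IsForest Λ f}.Nonempty)

/-- `y` is a leaf of these forests, so `f ↦ Function.update f y z'` keeps the forest property -/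
def TaskFlipFin : Prop := ∀ (d : ℕ) (Λ : Finset (V d)) (y z z' : V d) (B : Finset (V d × V d)), y ∈ Λ →
  Adj y z → Adj y z' → (∀ e ∈ B, e.1 ≠ y) → (∀ x, Adj x y → ∃ e ∈ B, e.1 = x ∧ e.2 ≠ y) →
  {f : Cfg d | IsForest Λ f ∧ Has (insert (y, z) B) f}.ncard =
    {f : Cfg d | IsForest Λ f ∧ Has (insert (y, z') B) f}.ncard

/-- limit over boxes `Finset.Icc (-n) n` -/
def TaskFlip : Prop := TaskFlipFin → ∀ (d : ℕ) (μ : Measure (Cfg d)), IsOWUSF μ →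
  ∀ (y z z' : V d) (B : Finset (V d × V d)), Adj y z → Adj y z' → (∀ e ∈ B, e.1 ≠ y) →
  (∀ x, Adj x y → ∃ e ∈ B, e.1 = x ∧ e.2 ≠ y) →
  μ.real {ρ | Has (insert (y, z) B) ρ} = μ.real {ρ | Has (insert (y, z') B) ρ}

/-- the box of side 3 around `y` -/
noncomputable def box {d : ℕ} (y : V d) : Finset (V d) := Finset.Icc (fun i => y i - 1) (fun i => y i + 1)

/-- the box without its centre is connected: change the zeros of `x - y` to `1` one by one, then the `-1`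
(through `0`); so `x` is connected to `y + (1,…,1)` -/
def TaskConn : Prop := ∀ (d : ℕ) (y x w : V d), 2 ≤ d → x ∈ box y → x ≠ y → w ∈ box y → w ≠ y →
  Relation.ReflTransGen (fun u v : V d => Adj u v ∧ (u ∈ box y ∧ u ≠ y) ∧ (v ∈ box y ∧ v ≠ y)) x w

/-- `h x` = least length of a chain from `x` to `w` -/
def TaskPar : Prop := ∀ (α : Type) (R : α → α → Prop) (E : Set α) (w : α),
  (∀ x ∈ E, Relation.ReflTransGen (fun u v => R u v ∧ u ∈ E ∧ v ∈ E) x w) →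
  ∃ (p : α → α) (h : α → ℕ), ∀ x ∈ E, x ≠ w → R x (p x) ∧ p x ∈ E ∧ h (p x) < h x

/-- make `y` a leaf: let `w` be the last vertex of the path of `y` in `box y` (`w ≠ y`); keep `f w`, lead the
other points of `box y \ {y}` to `w` by `p` of TaskPar, `y` to some neighbour. Every cycle of the new map through the
box would lead to `w` and back into the box -/
def TaskSurg : Prop := TaskConn → TaskPar → ∀ (d : ℕ) (Λ : Finset (V d)) (y : V d) (f : Cfg d), 2 ≤ d →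
  box y ⊆ Λ → IsForest Λ f →
  ∃ f' : Cfg d, IsForest Λ f' ∧ (∀ x, x ∉ box y → f' x = f x) ∧ ∀ x, f' x ≠ y

/-- `f` is determined by `f'` and the values on `box y`; so a positive proportion (independent of `Λ`) of the
forests has the leaf `y`; finitely many possible `B` (the values on `box y`) -/
def TaskLeaf : Prop := TaskFin → (∀ (d : ℕ) (Λ : Finset (V d)) (y : V d) (f : Cfg d), 2 ≤ d →
  box y ⊆ Λ → IsForest Λ f →
  ∃ f' : Cfg d, IsForest Λ f' ∧ (∀ x, x ∉ box y → f' x = f x) ∧ ∀ x, f' x ≠ y) →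
  ∀ (d : ℕ) (μ : Measure (Cfg d)) (y : V d), 2 ≤ d → IsOWUSF μ →
  ∃ (B : Finset (V d × V d)) (z : V d), (∀ e ∈ B, e.1 ≠ y) ∧ (∀ x, Adj x y → ∃ e ∈ B, e.1 = x ∧ e.2 ≠ y) ∧
    Adj y z ∧ 0 < μ.real {ρ | Has (insert (y, z) B) ρ}

/-- π-system of the sets `{ρ | Has B' ρ}`: `MeasureTheory.ext_of_generate_finite` -/
def TaskSwap : Prop := ∀ (d : ℕ) (μ : Measure (Cfg d)) (y z z' : V d) (B : Finset (V d × V d)),
  IsProbabilityMeasure μ → (∀ e ∈ B, e.1 ≠ y) →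
  (∀ B' : Finset (V d × V d), B ⊆ B' → (∀ e ∈ B', e.1 ≠ y) →
    μ.real {ρ | Has (insert (y, z) B') ρ} = μ.real {ρ | Has (insert (y, z') B') ρ}) →
  (μ.restrict {ρ | Has (insert (y, z) B) ρ}).map (fun ρ => Function.update ρ y z') =
    μ.restrict {ρ | Has (insert (y, z') B) ρ}

/-- `Th (update ρ y z') = Th ρ * exp (2πi (φ y z' - φ y z))` if `ρ y = z` -/
def TaskNonconst : Prop := ∀ (d : ℕ) (μ : Measure (Cfg d)) (y z z' : V d) (B : Finset (V d × V d))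
  (φ : V d → V d → ℝ) (m : V d → ℝ), IsProbabilityMeasure μ → Summable m → (∀ x y, |φ x y| ≤ m x) →
  Measurable (Th φ) →
  (μ.restrict {ρ | Has (insert (y, z) B) ρ}).map (fun ρ => Function.update ρ y z') =
    μ.restrict {ρ | Has (insert (y, z') B) ρ} →
  0 < μ.real {ρ | Has (insert (y, z) B) ρ} →
  Complex.exp (2 * Real.pi * Complex.I * ((φ y z' - φ y z : ℝ) : ℂ)) ≠ 1 →
  ¬ ∃ c : ℂ, ∀ᵐ ρ ∂μ, Th φ ρ = c

/-! ### conditioning -/

/-- hint: `Filter.exists_eventuallyEq_const_of_forall_separating` -/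
def TaskSep : Prop := ∀ (Ω : Type) [MeasurableSpace Ω] (μ : Measure Ω) (g : Ω → ℂ), IsProbabilityMeasure μ →
  Measurable g → (¬ ∃ c : ℂ, ∀ᵐ ω ∂μ, g ω = c) →
  ∃ A : Set ℂ, MeasurableSet A ∧ μ (g ⁻¹' A) ≠ 0 ∧ μ (g ⁻¹' A) ≠ 1

/-- `ν = ProbabilityTheory.cond μ (g ⁻¹' A)`; `final⁻¹ B ∩ g⁻¹ A` is a.e. equal to `final⁻¹ (B ∩ g⁻¹ A)` -/
def TaskCond : Prop := ∀ (d : ℕ) (τ : V d → V d → V d) (a : V d) (μ : Measure (Cfg d)) (g : Cfg d → ℂ)
  (A : Set ℂ), IsStat τ a μ → Measurable g → MeasurableSet A → (∀ᵐ ρ ∂μ, g (final τ a ρ) = g ρ) →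
  μ (g ⁻¹' A) ≠ 0 → μ (g ⁻¹' A) ≠ 1 → ∃ ν : Measure (Cfg d), IsStat τ a ν ∧ ν ≠ μ

end Pool.Agent.Q223.RO
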