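import Pool.Agent.Q223.RO.Stmts

set_option autoImplicit false

namespace Pool.Agent.Q223.RO

private theorem cb (m : ℕ) : ((Nat.centralBinom m : ℕ) : ℝ) ^ 2 * (2 * m + 1) ≤ 16 ^ m := by
  induction m with
  | zero => simp
  | succ m ih =>
    have h : ((m : ℝ) + 1) * (Nat.centralBinom (m + 1) : ℝ) =
        2 * (2 * m + 1) * (Nat.centralBinom m : ℝ) := by
      have := Nat.succ_mul_centralBinom_succ m
      exact_mod_cast this
    have hm : (0 : ℝ) ≤ m := Nat.cast_nonneg m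
    have hpos : (0 : ℝ) < ((m : ℝ) + 1) ^ 2 := by positivity
    have h2 : ((m : ℝ) + 1) ^ 2 * ((Nat.centralBinom (m + 1) : ℝ) ^ 2 * (2 * m + 3)) ≤
        ((m : ℝ) + 1) ^ 2 * 16 ^ (m + 1) := by
      calc ((m : ℝ) + 1) ^ 2 * ((Nat.centralBinom (m + 1) : ℝ) ^ 2 * (2 * m + 3))
          = (((m : ℝ) + 1) * (Nat.centralBinom (m + 1) : ℝ)) ^ 2 * (2 * m + 3) := by ring
        _ = 4 * ((2 * m + 1) * (2 * m + 3)) * ((Nat.centralBinom m : ℝ) ^ 2 * (2 * m + 1)) := by
            rw [h]; ring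
        _ ≤ 4 * (4 * ((m : ℝ) + 1) ^ 2) * ((Nat.centralBinom m : ℝ) ^ 2 * (2 * m + 1)) := by
            apply mul_le_mul_of_nonneg_right _ (by positivity)
            nlinarith
        _ ≤ 4 * (4 * ((m : ℝ) + 1) ^ 2) * 16 ^ m := by
            apply mul_le_mul_of_nonneg_left ih (by positivity)
        _ = ((m : ℝ) + 1) ^ 2 * 16 ^ (m + 1) := by ring
    have h3 := le_of_mul_le_mul_left h2 hpos
    have h4 : (2 * ((m + 1 : ℕ) : ℝ) + 1) = 2 * m + 3 := by push_cast; ring
    rw [h4]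
    exact h3

theorem taskBin : TaskBin := by
  intro n
  rcases Nat.even_or_odd' n with ⟨m, rfl | rfl⟩
  · have h := cb m
    have h1 : 2 * m / 2 = m := by omega
    rw [h1, ← Nat.centralBinom_eq_two_mul_choose]
    have h2 : (4 : ℝ) ^ (2 * m) = 16 ^ m := by rw [pow_mul]; norm_num
    rw [h2]
    push_cast
    exact h
  · have h := cb (m + 1)
    have h1 : (2 * m + 1) / 2 = m := by omega
    rw [h1]
    have h3 : (Nat.centralBinom (m + 1) : ℝ) = 2 * ((2 * m + 1).choose m : ℝ) := by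
      have : Nat.centralBinom (m + 1) = 2 * (2 * m + 1).choose m := by
        rw [Nat.centralBinom_eq_two_mul_choose]
        have h4 : 2 * (m + 1) = (2 * m + 1) + 1 := by ring
        rw [h4, Nat.choose_succ_succ, Nat.choose_symm_half]
        ring
      exact_mod_cast this
    rw [h3] at h
    have h5 : (4 : ℝ) ^ (2 * m + 1) * 4 = 16 ^ (m + 1) := by
      rw [show (16 : ℝ) = 4 ^ 2 by norm_num, ← pow_mul]
      ring
    push_cast at h ⊢
    have h6 : (0 : ℝ) ≤ ((2 * m + 1).choose m : ℝ) ^ 2 := by positivity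
    nlinarith

end Pool.Agent.Q223.RO
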