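import Pool.Agent.Q223.RO.Stmts

set_option autoImplicit false

namespace Pool.Agent.Q223.RO

open MeasureTheory Filter Topology Set

theorem taskCond : TaskCond := by
  intro d τ a μ g A hst hg hA hinv h0 h1
  have := hst.prob
  set S : Set (Cfg d) := g ⁻¹' A with hS
  have hSm : MeasurableSet S := hg hA
  have hac : ProbabilityTheory.cond μ S ≪ μ := ProbabilityTheory.cond_absolutelyContinuous
  refine ⟨ProbabilityTheory.cond μ S, ⟨ProbabilityTheory.cond_isProbabilityMeasure h0,
    hac.ae_le hst.valid, hac.ae_le hst.transient, fun B hB => ?_⟩, fun heq => ?_⟩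
  · rw [ProbabilityTheory.cond_apply hSm, ProbabilityTheory.cond_apply hSm]
    congr 1
    have e1 : μ (S ∩ final τ a ⁻¹' B) = μ (final τ a ⁻¹' (S ∩ B)) := by
      apply measure_congr
      filter_upwards [hinv] with ρ hρ
      apply propext
      change (g ρ ∈ A ∧ final τ a ρ ∈ B) ↔ (g (final τ a ρ) ∈ A ∧ final τ a ρ ∈ B)
      rw [hρ]
    rw [e1, hst.stat _ (hSm.inter hB)]
  · apply h1
    have h2 : ProbabilityTheory.cond μ S S = 1 := by
      rw [ProbabilityTheory.cond_apply hSm, Set.inter_self]
      exact ENNReal.inv_mul_cancel h0 (measure_ne_top μ S)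
    rw [heq] at h2
    exact h2

end Pool.Agent.Q223.RO
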