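import Pool.Agent.Q223.RO.Stmts

set_option autoImplicit false

namespace Pool.Agent.Q223.RO

open MeasureTheory Filter Topology Set

theorem taskFinal : TaskFinal := by
  intro d τ a ρ hT x
  have hfin := hT x
  obtain ⟨N, hN⟩ : ∃ N : ℕ, ∀ t, N ≤ t → (walk τ a ρ t).1 ≠ x := by
    obtain ⟨M, hM⟩ := hfin.bddAbove
    refine ⟨M + 1, fun t ht h => ?_⟩
    have := hM (show t ∈ {t | (walk τ a ρ t).1 = x} from h)
    omega
  have hconst : ∀ t, N ≤ t → (walk τ a ρ t).2 x = (walk τ a ρ N).2 x := by
    intro t ht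
    induction t, ht using Nat.le_induction with
    | base => rfl
    | succ t ht ih =>
      rw [← ih]
      change Function.update (walk τ a ρ t).2 (walk τ a ρ t).1 _ x = _
      exact Function.update_of_ne (fun h => hN t ht h.symm) _ _
  have hex : ∃ v, ∀ᶠ t in atTop, (walk τ a ρ t).2 x = v :=
    ⟨_, eventually_atTop.2 ⟨N, hconst⟩⟩
  exact Classical.epsilon_spec hex

end Pool.Agent.Q223.RO
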