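import Pool.Agent.Q223.RO.Stmts

set_option autoImplicit false

namespace Pool.Agent.Q223.RO

open MeasureTheory Filter Topology Set

theorem taskFlip : TaskFlip := by
  intro hF d μ hμ y z z' B hz hz' hB hx
  set Λ : ℕ → Finset (V d) := fun n => Finset.Icc (fun _ => -(n : ℤ)) (fun _ => (n : ℤ)) with hΛ
  have hmono : Monotone Λ := by
    intro m n hmn
    apply Finset.Icc_subset_Icc
    · intro i
      simp only [neg_le_neg_iff]
      exact_mod_cast hmn
    · intro i
      simp only
      exact_mod_cast hmn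
  have hmem : ∀ (x : V d) (n : ℕ), (∀ i, |x i| ≤ n) → x ∈ Λ n := by
    intro x n h
    simp only [hΛ, Finset.mem_Icc]
    exact ⟨fun i => (abs_le.1 (h i)).1, fun i => (abs_le.1 (h i)).2⟩
  have hcov : ∀ x : V d, ∃ n, x ∈ Λ n := by
    intro x
    refine ⟨∑ i, (x i).natAbs, hmem x _ fun i => ?_⟩
    rw [Int.abs_eq_natAbs]
    exact_mod_cast Finset.single_le_sum (f := fun i => (x i).natAbs) (fun i _ => Nat.zero_le _)
      (Finset.mem_univ i)
  have h1 := hμ.lim Λ hmono hcov (insert (y, z) B)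
  have h2 := hμ.lim Λ hmono hcov (insert (y, z') B)
  obtain ⟨n₀, hn₀⟩ := hcov y
  have h3 : ∀ᶠ n in atTop, pr (Λ n) (insert (y, z) B) = pr (Λ n) (insert (y, z') B) := by
    filter_upwards [eventually_ge_atTop n₀] with n hn
    unfold pr
    rw [hF d (Λ n) y z z' B (hmono hn hn₀) hz hz' hB hx]
  exact tendsto_nhds_unique h1 (h2.congr' (h3.mono fun n h => h.symm))

end Pool.Agent.Q223.RO
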