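import Pool.Agent.Q223.RO.Stmts

set_option autoImplicit false

namespace Pool.Agent.Q223.RO

namespace FlipFin

theorem adj_ne {d : ℕ} {y z : V d} (h : Adj y z) : z ≠ y := by
  rintro rfl
  obtain ⟨i, h | h⟩ := h
  · have := congrFun h i
    simp at this
  · have := congrFun h i
    simp at this
    omega

theorem flip {d : ℕ} {Λ : Finset (V d)} {y z z' : V d} {B : Finset (V d × V d)} (hy : y ∈ Λ)
    (hz' : Adj y z') (hB : ∀ e ∈ B, e.1 ≠ y)
    (hB' : ∀ x, Adj x y → ∃ e ∈ B, e.1 = x ∧ e.2 ≠ y) {f : Cfg d}
    (hf : IsForest Λ f ∧ Has (insert (y, z) B) f) :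
    IsForest Λ (Function.update f y z') ∧ Has (insert (y, z') B) (Function.update f y z') := by
  classical
  obtain ⟨⟨h1, h2, h3⟩, h4⟩ := hf
  have hpre : ∀ x, f x ≠ y := by
    intro x hx
    by_cases hxΛ : x ∈ Λ
    · have := h2 x hxΛ
      rw [hx] at this
      obtain ⟨e, he, he1, he2⟩ := hB' x this
      have := h4 e (Finset.mem_insert_of_mem he)
      rw [he1, hx] at this
      exact he2 this.symm
    · rw [h1 x hxΛ] at hx
      exact hxΛ (hx ▸ hy)
  have hpre' : ∀ x, Function.update f y z' x ≠ y := by
    intro x
    by_cases hx : x = y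
    · subst hx
      rw [Function.update_self]
      exact adj_ne hz'
    · rw [Function.update_of_ne hx]
      exact hpre x
  refine ⟨⟨?_, ?_, ?_⟩, ?_⟩
  · intro x hx
    have : x ≠ y := fun h => hx (h ▸ hy)
    rw [Function.update_of_ne this]
    exact h1 x hx
  · intro x hx
    by_cases hxy : x = y
    · subst hxy
      rw [Function.update_self]
      exact hz'
    · rw [Function.update_of_ne hxy]
      exact h2 x hx
  · intro x hx n hn hc
    obtain ⟨m, rfl⟩ : ∃ m, n = m + 1 := ⟨n - 1, by omega⟩
    by_cases hxy : x = y
    · subst hxy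
      rw [Function.iterate_succ_apply'] at hc
      exact hpre' _ hc
    · have key : ∀ k, (Function.update f y z')^[k] x = f^[k] x ∧ f^[k] x ≠ y := by
        intro k
        induction k with
        | zero => exact ⟨rfl, hxy⟩
        | succ k ih =>
          rw [Function.iterate_succ_apply', Function.iterate_succ_apply', ih.1,
            Function.update_of_ne ih.2]
          exact ⟨rfl, hpre _⟩
      exact h3 x hx (m + 1) hn ((key (m + 1)).1.symm.trans hc)
  · intro e he
    rcases Finset.mem_insert.1 he with rfl | he
    · simp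
    · rw [Function.update_of_ne (hB e he)]
      exact h4 e (Finset.mem_insert_of_mem he)

end FlipFin

theorem taskFlipFin : TaskFlipFin := by
  classical
  intro d Λ y z z' B hy hz hz' hB hB'
  refine Set.ncard_congr (fun f _ => Function.update f y z') ?_ ?_ ?_
  · intro f hf
    exact FlipFin.flip hy hz' hB hB' hf
  · intro f g hf hg h
    have hfy : f y = z := hf.2 (y, z) (Finset.mem_insert_self _ _)
    have hgy : g y = z := hg.2 (y, z) (Finset.mem_insert_self _ _)
    funext x
    by_cases hx : x = y
    · rw [hx, hfy, hgy]
    · have := congrFun h x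
      simp only [Function.update_of_ne hx] at this
      exact this
  · intro g hg
    refine ⟨Function.update g y z, FlipFin.flip hy hz hB hB' hg, ?_⟩
    have hgy : g y = z' := hg.2 (y, z') (Finset.mem_insert_self _ _)
    change Function.update (Function.update g y z) y z' = g
    rw [Function.update_idem, ← hgy, Function.update_eq_self]

end Pool.Agent.Q223.RO
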