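import Mathlib
import Pool.Agent.Q223.RO.Stmts

set_option autoImplicit false

namespace Pool.Agent.Q223.RO

open MeasureTheory Filter Topology Set

namespace LeafAux

theorem mem_box {d : ℕ} (y : V d) : y ∈ box y := by
  unfold box
  rw [Finset.mem_Icc]
  exact ⟨fun i => by simp, fun i => by simp⟩

theorem adj_mem_box {d : ℕ} (x y : V d) (h : Adj x y) : x ∈ box y ∧ x ≠ y := by
  obtain ⟨i, h | h⟩ := h
  · constructor
    · unfold box
      rw [Finset.mem_Icc]
      subst h
      refine ⟨fun j => ?_, fun j => ?_⟩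
      · by_cases hj : j = i
        · subst hj; simp
        · simp [hj]
      · by_cases hj : j = i
        · subst hj; simp; omega
        · simp [hj]
    · intro hxy
      subst hxy
      have := congrFun h i
      simp at this
  · constructor
    · unfold box
      rw [Finset.mem_Icc]
      subst h
      refine ⟨fun j => ?_, fun j => ?_⟩
      · by_cases hj : j = i
        · subst hj; simp; omega
        · simp [hj]
      · by_cases hj : j = i
        · subst hj; simp
        · simp [hj]
    · intro hxy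
      subst hxy
      have := congrFun h i
      simp at this
      omega

/-- the larger box -/
noncomputable def big {d : ℕ} (y : V d) : Finset (V d) :=
  Finset.Icc (fun i => y i - 2) (fun i => y i + 2)

theorem adj_big {d : ℕ} (y x z : V d) (hx : x ∈ box y) (h : Adj x z) : z ∈ big y := by
  unfold box at hx
  unfold big
  rw [Finset.mem_Icc] at hx ⊢
  obtain ⟨h1, h2⟩ := hx
  obtain ⟨i, h | h⟩ := h
  · subst h
    refine ⟨fun j => ?_, fun j => ?_⟩
    · have := h1 j
      by_cases hj : j = i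
      · subst hj; simp at this ⊢; omega
      · simp [hj] at this ⊢; omega
    · have := h2 j
      by_cases hj : j = i
      · subst hj; simp at this ⊢; omega
      · simp [hj] at this ⊢; omega
  · subst h
    refine ⟨fun j => ?_, fun j => ?_⟩
    · have := h1 j
      by_cases hj : j = i
      · subst hj; simp at this ⊢; omega
      · simp [hj] at this ⊢; omega
    · have := h2 j
      by_cases hj : j = i
      · subst hj; simp at this ⊢; omega
      · simp [hj] at this ⊢; omega

open Classical in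
/-- the patterns -/
noncomputable def S {d : ℕ} (y : V d) : Finset (↥(box y) → V d) :=
  Fintype.piFinset (fun _ : ↥(box y) => big y)

open Classical in
noncomputable def G {d : ℕ} (y : V d) : Finset (↥(box y) → V d) :=
  (S y).filter (fun g => (∀ x : ↥(box y), g x ≠ y) ∧ Adj y (g ⟨y, mem_box y⟩))

open Classical in
noncomputable def B {d : ℕ} (y : V d) (g : ↥(box y) → V d) : Finset (V d × V d) :=
  ((box y).attach.filter (fun x => x.1 ≠ y)).image (fun x => (x.1, g x))

open Classical in
theorem key (hfin : TaskFin) (hs : ∀ (d : ℕ) (Λ : Finset (V d)) (y : V d) (f : Cfg d), 2 ≤ d →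
    box y ⊆ Λ → IsForest Λ f →
    ∃ f' : Cfg d, IsForest Λ f' ∧ (∀ x, x ∉ box y → f' x = f x) ∧ ∀ x, f' x ≠ y)
    (d : ℕ) (hd : 2 ≤ d) (y : V d) (Λ : Finset (V d)) (hb : box y ⊆ Λ) :
    1 ≤ ((S y).card : ℝ) * ∑ g ∈ G y, pr Λ (insert (y, g ⟨y, mem_box y⟩) (B y g)) := by
  obtain ⟨hF1, hF2⟩ := hfin d Λ
  have hF2 := hF2 (by omega)
  set 𝓕 : Finset (Cfg d) := hF1.toFinset with h𝓕
  have hmem : ∀ f, f ∈ 𝓕 ↔ IsForest Λ f := by
    intro f
    rw [h𝓕, Set.Finite.mem_toFinset]
    rfl
  have hcard : ({f : Cfg d | IsForest Λ f}.ncard : ℝ) = 𝓕.card := by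
    have : {f : Cfg d | IsForest Λ f} = (𝓕 : Set (Cfg d)) := by
      ext f
      simp [hmem]
    rw [this, Set.ncard_coe_finset]
  have hpos : (0 : ℝ) < 𝓕.card := by
    obtain ⟨f, hf⟩ := hF2
    have : 0 < 𝓕.card := Finset.card_pos.2 ⟨f, (hmem f).2 hf⟩
    exact_mod_cast this
  set A : (↥(box y) → V d) → Finset (Cfg d) :=
    fun g => 𝓕.filter (fun f => Has (insert (y, g ⟨y, mem_box y⟩) (B y g)) f) with hA
  have hAcard : ∀ g, ({f : Cfg d | IsForest Λ f ∧
      Has (insert (y, g ⟨y, mem_box y⟩) (B y g)) f}.ncard : ℝ) = (A g).card := by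
    intro g
    have : {f : Cfg d | IsForest Λ f ∧ Has (insert (y, g ⟨y, mem_box y⟩) (B y g)) f} =
        (A g : Set (Cfg d)) := by
      ext f
      simp [hA, hmem]
    rw [this, Set.ncard_coe_finset]
  set L : Finset (Cfg d) := 𝓕.filter (fun f => ∀ x, f x ≠ y) with hL
  have hpat : ∀ f, IsForest Λ f → (fun x : ↥(box y) => f x.1) ∈ S y := by
    intro f hf
    unfold S
    rw [Fintype.mem_piFinset]
    intro x
    exact adj_big y x.1 _ x.2 (hf.2.1 x.1 (hb x.2))
  have h1 : L ⊆ (G y).biUnion A := by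
    intro f hf
    rw [hL, Finset.mem_filter] at hf
    obtain ⟨hf1, hf2⟩ := hf
    have hf1' := (hmem f).1 hf1
    rw [Finset.mem_biUnion]
    refine ⟨fun x : ↥(box y) => f x.1, ?_, ?_⟩
    · unfold G
      rw [Finset.mem_filter]
      exact ⟨hpat f hf1', fun x => hf2 x.1, hf1'.2.1 y (hb (mem_box y))⟩
    · rw [hA, Finset.mem_filter]
      refine ⟨hf1, ?_⟩
      intro e he
      rw [Finset.mem_insert] at he
      rcases he with he | he
      · subst he; rfl
      · unfold B at he
        rw [Finset.mem_image] at he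
        obtain ⟨x, _, rfl⟩ := he
        rfl
  have h2 : (L.card : ℝ) ≤ ∑ g ∈ G y, ((A g).card : ℝ) := by
    have := (Finset.card_le_card h1).trans Finset.card_biUnion_le
    exact_mod_cast this
  have h3 : (𝓕.card : ℝ) ≤ (S y).card * L.card := by
    choose! sg hsg using fun f (hf : IsForest Λ f) => hs d Λ y f hd hb hf
    have : 𝓕.card ≤ ((S y) ×ˢ L).card := by
      refine Finset.card_le_card_of_injOn (fun f => ((fun x : ↥(box y) => f x.1), sg f)) ?_ ?_
      · intro f hf
        have hf' := (hmem f).1 hf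
        have h5 := hsg f hf'
        simp only [Finset.coe_product, Set.mem_prod, Finset.mem_coe]
        refine ⟨hpat f hf', ?_⟩
        rw [hL, Finset.mem_filter]
        exact ⟨(hmem _).2 h5.1, h5.2.2⟩
      · intro f hf f' hf' hff
        have k1 := (hmem f).1 hf
        have k2 := (hmem f').1 hf'
        simp only [Prod.mk.injEq] at hff
        obtain ⟨e1, e2⟩ := hff
        funext x
        by_cases hx : x ∈ box y
        · exact congrFun e1 ⟨x, hx⟩
        · rw [← (hsg f k1).2.1 x hx, ← (hsg f' k2).2.1 x hx, e2]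
    rw [Finset.card_product] at this
    exact_mod_cast this
  have h4 : ∑ g ∈ G y, pr Λ (insert (y, g ⟨y, mem_box y⟩) (B y g)) =
      (∑ g ∈ G y, ((A g).card : ℝ)) / 𝓕.card := by
    rw [Finset.sum_div]
    refine Finset.sum_congr rfl (fun g _ => ?_)
    unfold pr
    rw [hcard, hAcard]
  rw [h4, ← mul_div_assoc, le_div_iff₀ hpos, one_mul]
  refine h3.trans ?_
  gcongr

end LeafAux

open LeafAux in
open Classical in
theorem taskLeaf : TaskLeaf := by
  intro hfin hs d μ y hd hμ
  by_contra hcon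
  push Not at hcon
  set Λ : ℕ → Finset (V d) := fun n => Finset.Icc (fun _ => -(n : ℤ)) (fun _ => (n : ℤ)) with hΛ
  have hmono : Monotone Λ := by
    intro m n hmn
    refine Finset.Icc_subset_Icc (fun i => ?_) (fun i => ?_)
    · show -(n : ℤ) ≤ -(m : ℤ)
      omega
    · show (m : ℤ) ≤ (n : ℤ)
      omega
  have hsum : ∀ (x : V d) (i : Fin d), (x i).natAbs ≤ ∑ j, (x j).natAbs := by
    intro x i
    exact Finset.single_le_sum (f := fun j => (x j).natAbs) (fun _ _ => Nat.zero_le _)
      (Finset.mem_univ i)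
  have hexh : ∀ x, ∃ n, x ∈ Λ n := by
    intro x
    refine ⟨∑ j, (x j).natAbs, ?_⟩
    rw [hΛ, Finset.mem_Icc]
    refine ⟨fun i => ?_, fun i => ?_⟩
    · have := hsum x i
      show -((∑ j, (x j).natAbs : ℕ) : ℤ) ≤ x i
      omega
    · have := hsum x i
      show x i ≤ ((∑ j, (x j).natAbs : ℕ) : ℤ)
      omega
  have hbox : ∀ᶠ n in atTop, box y ⊆ Λ n := by
    filter_upwards [eventually_ge_atTop (∑ j, (y j).natAbs + 1)] with n hn
    refine Finset.Icc_subset_Icc (fun i => ?_) (fun i => ?_)
    · have := hsum y i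
      show -(n : ℤ) ≤ y i - 1
      omega
    · have := hsum y i
      show y i + 1 ≤ (n : ℤ)
      omega
  have hlim : Tendsto (fun n => ((S y).card : ℝ) *
      ∑ g ∈ G y, pr (Λ n) (insert (y, g ⟨y, mem_box y⟩) (B y g))) atTop
      (𝓝 (((S y).card : ℝ) *
        ∑ g ∈ G y, μ.real {ρ | Has (insert (y, g ⟨y, mem_box y⟩) (B y g)) ρ})) := by
    refine Tendsto.const_mul _ (tendsto_finsetSum _ (fun g _ => ?_))
    exact hμ.lim Λ hmono hexh _
  have hge := ge_of_tendsto hlim (b := 1) (by
    filter_upwards [hbox] with n hn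
    exact key hfin hs d hd y (Λ n) hn)
  have hzero : ∑ g ∈ G y, μ.real {ρ | Has (insert (y, g ⟨y, mem_box y⟩) (B y g)) ρ} ≤ 0 := by
    refine Finset.sum_nonpos (fun g hg => ?_)
    unfold G at hg
    rw [Finset.mem_filter] at hg
    obtain ⟨_, hg2, hg3⟩ := hg
    refine hcon (B y g) (g ⟨y, mem_box y⟩) ?_ ?_ hg3
    · intro e he
      unfold B at he
      rw [Finset.mem_image] at he
      obtain ⟨x, hx, rfl⟩ := he
      rw [Finset.mem_filter] at hx
      exact hx.2
    · intro x hx
      obtain ⟨k1, k2⟩ := adj_mem_box x y hx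
      refine ⟨(x, g ⟨x, k1⟩), ?_, rfl, hg2 _⟩
      unfold B
      rw [Finset.mem_image]
      exact ⟨⟨x, k1⟩, by simp [k2], rfl⟩
  have : ((S y).card : ℝ) * ∑ g ∈ G y, μ.real {ρ | Has (insert (y, g ⟨y, mem_box y⟩) (B y g)) ρ} ≤ 0 :=
    mul_nonpos_of_nonneg_of_nonpos (Nat.cast_nonneg _) hzero
  linarith

end Pool.Agent.Q223.RO
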