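import Pool.Agent.Q223.RO.Stmts

set_option autoImplicit false

namespace Pool.Agent.Q223.RO

open MeasureTheory Filter Topology Set

theorem taskMeas : TaskMeas := by
  intro d φ m hm hφ
  have hH : Measurable (H φ) := by
    refine measurable_of_tendsto_metrizable' (atTop : Filter (Finset (V d)))
      (f := fun s ρ => ∑ x ∈ s, φ x (ρ x)) ?_ ?_
    · intro s
      refine Finset.measurable_sum s fun x _ => ?_
      exact (measurable_of_countable (φ x)).comp (measurable_pi_apply x)
    · rw [tendsto_pi_nhds]
      intro ρ
      have hs : Summable fun x => φ x (ρ x) :=
        Summable.of_norm_bounded hm fun x => by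
          rw [Real.norm_eq_abs]
          exact hφ x (ρ x)
      exact hs.hasSum
  unfold Th
  exact Complex.measurable_exp.comp (measurable_const.mul (Complex.measurable_ofReal.comp hH))

end Pool.Agent.Q223.RO
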