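import Mathlib
import Pool.Agent.Q223.RO.Stmts

set_option autoImplicit false

namespace Pool.Agent.Q223.RO

open MeasureTheory Filter Topology Set

theorem taskNC : TaskNC := by
  intro d τ F φ hd hτ hF hS hx
  by_contra hcon
  push Not at hcon
  obtain ⟨x, hx⟩ := hx
  have h1 : ∀ y z z', Adj y z → Adj y z' → ∃ k : ℤ, φ y z' - φ y z = k := by
    intro y z z' h h'
    have h0 := hcon y z z' h h'
    rw [Complex.exp_eq_one_iff] at h0
    obtain ⟨n, hn⟩ := h0
    refine ⟨n, ?_⟩
    have h2 : (2 * Real.pi * Complex.I : ℂ) ≠ 0 := Complex.two_pi_I_ne_zero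
    have h3 : ((φ y z' - φ y z : ℝ) : ℂ) = ((n : ℝ) : ℂ) := by
      apply mul_left_cancel₀ h2
      rw [hn]
      push_cast
      ring
    exact Complex.ofReal_injective h3
  have h2 : ∀ x z, Adj x z → ∃ k : ℤ, F z - F x = k := by
    intro x z hz
    have hit : ∀ k : ℕ, Adj x ((τ x)^[k] z) := by
      intro k
      induction k with
      | zero => exact hz
      | succ k ih =>
        rw [Function.iterate_succ_apply']
        exact (hτ x _ ih).1
    obtain ⟨k, hk⟩ := (hτ x (τ x z) (hτ x z hz).1).2 z hz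
    have e : τ x ((τ x)^[k] z) = z := by
      have h5 : τ x ((τ x)^[k] z) = (τ x)^[k + 1] z := (Function.iterate_succ_apply' (τ x) k z).symm
      rw [h5, Function.iterate_succ_apply]
      exact hk
    obtain ⟨m, hm⟩ := hS x _ (hit k)
    rw [e] at hm
    obtain ⟨n, hn⟩ := h1 x _ z (hit k) hz
    exact ⟨m - n, by push_cast; linarith⟩
  let i : Fin d := ⟨0, hd⟩
  have h3 : ∀ n : ℕ, ∃ k : ℤ, F x - F (x + (n : ℤ) • Pi.single i 1) = k := by
    intro n
    induction n with
    | zero => exact ⟨0, by simp⟩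
    | succ n ih =>
      obtain ⟨k, hk⟩ := ih
      have hadj : Adj (x + (n : ℤ) • Pi.single i (1 : ℤ)) (x + ((n + 1 : ℕ) : ℤ) • Pi.single i (1 : ℤ)) := by
        refine ⟨i, Or.inl ?_⟩
        push_cast
        rw [add_smul, one_smul, add_assoc]
      obtain ⟨m, hm⟩ := h2 _ _ hadj
      exact ⟨k - m, by push_cast at hm ⊢; linarith⟩
  have hinj : Function.Injective (fun n : ℕ => x + (n : ℤ) • (Pi.single i (1 : ℤ) : Fin d → ℤ)) := by
    intro a b hab
    have := congrFun hab i
    simp at this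
    exact this
  have ht : Tendsto (fun n : ℕ => F x - F (x + (n : ℤ) • Pi.single i 1)) atTop (𝓝 (F x - 0)) := by
    refine Tendsto.sub tendsto_const_nhds ?_
    have := hF.tendsto_cofinite_zero.comp hinj.tendsto_cofinite
    rw [Nat.cofinite_eq_atTop] at this
    exact this
  have hc : IsClosed (Set.range ((↑) : ℤ → ℝ)) := Int.isClosedEmbedding_coe_real.isClosed_range
  have hm : F x - 0 ∈ Set.range ((↑) : ℤ → ℝ) := by
    refine hc.mem_of_tendsto ht (Filter.Eventually.of_forall fun n => ?_)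
    obtain ⟨k, hk⟩ := h3 n
    exact ⟨k, hk.symm⟩
  obtain ⟨k, hk⟩ := hm
  exact hx k (by rw [hk]; ring)

end Pool.Agent.Q223.RO
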