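import Pool.Agent.Q223.RO.Stmts

set_option autoImplicit false

namespace Pool.Agent.Q223.RO

open MeasureTheory Filter Topology Set

/-- the scalar sum -/
theorem nfour_aux (p q : ℝ) (hp : 0 < p) (hq : 0 ≤ q) (hpq : p + q = 1) (t : ℕ) :
    ∑ n ∈ Finset.range (t + 1), p ^ n * q ^ (t - n) * (t.choose n : ℝ) * (1 / ((n : ℝ) + 1) ^ 2)
      ≤ 2 / (p ^ 2 * ((t : ℝ) + 1) ^ 2) := by
  have hsum : ∑ n ∈ Finset.range (t + 1), p ^ (n + 2) * q ^ (t - n) * ((t + 2).choose (n + 2) : ℝ)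
      ≤ 1 := by
    have h1 := add_pow p q (t + 2)
    rw [hpq, one_pow] at h1
    rw [Finset.sum_range_succ', Finset.sum_range_succ'] at h1
    have h2 : ∀ n ∈ Finset.range (t + 1), p ^ (n + 1 + 1) * q ^ (t + 2 - (n + 1 + 1)) *
        ((t + 2).choose (n + 1 + 1) : ℝ) = p ^ (n + 2) * q ^ (t - n) * ((t + 2).choose (n + 2) : ℝ) := by
      intro n _
      have : t + 2 - (n + 1 + 1) = t - n := by omega
      rw [this]
    rw [Finset.sum_congr rfl h2] at h1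
    have h3 : 0 ≤ p ^ (0 + 1) * q ^ (t + 2 - (0 + 1)) * ((t + 2).choose (0 + 1) : ℝ) := by positivity
    have h4 : 0 ≤ p ^ 0 * q ^ (t + 2 - 0) * ((t + 2).choose 0 : ℝ) := by positivity
    linarith
  have hterm : ∀ n ∈ Finset.range (t + 1),
      p ^ n * q ^ (t - n) * (t.choose n : ℝ) * (1 / ((n : ℝ) + 1) ^ 2)
        ≤ (2 / (p ^ 2 * ((t : ℝ) + 1) ^ 2)) *
          (p ^ (n + 2) * q ^ (t - n) * ((t + 2).choose (n + 2) : ℝ)) := by
    intro n _
    have hc : ((t + 2).choose (n + 2) : ℝ) * (((n : ℝ) + 1) * ((n : ℝ) + 2))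
        = ((t : ℝ) + 1) * ((t : ℝ) + 2) * (t.choose n : ℝ) := by
      have e1 := Nat.add_one_mul_choose_eq (t + 1) (n + 1)
      have e2 := Nat.add_one_mul_choose_eq t n
      have e1' : (((t : ℝ) + 1) + 1) * ((t + 1).choose (n + 1) : ℝ)
          = ((t + 2).choose (n + 2) : ℝ) * (((n : ℝ) + 1) + 1) := by exact_mod_cast e1
      have e2' : ((t : ℝ) + 1) * (t.choose n : ℝ)
          = ((t + 1).choose (n + 1) : ℝ) * ((n : ℝ) + 1) := by exact_mod_cast e2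
      calc ((t + 2).choose (n + 2) : ℝ) * (((n : ℝ) + 1) * ((n : ℝ) + 2))
          = (((t + 2).choose (n + 2) : ℝ) * (((n : ℝ) + 1) + 1)) * ((n : ℝ) + 1) := by ring
        _ = ((((t : ℝ) + 1) + 1) * ((t + 1).choose (n + 1) : ℝ)) * ((n : ℝ) + 1) := by rw [← e1']
        _ = (((t : ℝ) + 1) + 1) * (((t + 1).choose (n + 1) : ℝ) * ((n : ℝ) + 1)) := by ring
        _ = ((t : ℝ) + 1) * ((t : ℝ) + 2) * (t.choose n : ℝ) := by rw [← e2']; ring
    have hn1 : (0 : ℝ) < (n : ℝ) + 1 := by positivity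
    have ht1 : (0 : ℝ) < (t : ℝ) + 1 := by positivity
    have hcc : ((t + 2).choose (n + 2) : ℝ)
        = ((t : ℝ) + 1) * ((t : ℝ) + 2) * (t.choose n : ℝ) / (((n : ℝ) + 1) * ((n : ℝ) + 2)) := by
      rw [eq_div_iff (by positivity)]
      exact hc
    rw [hcc]
    have hX : 0 ≤ p ^ n * q ^ (t - n) * (t.choose n : ℝ) := by positivity
    have e3 : (2 / (p ^ 2 * ((t : ℝ) + 1) ^ 2)) * (p ^ (n + 2) * q ^ (t - n) *
        (((t : ℝ) + 1) * ((t : ℝ) + 2) * (t.choose n : ℝ) / (((n : ℝ) + 1) * ((n : ℝ) + 2))))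
        = (p ^ n * q ^ (t - n) * (t.choose n : ℝ)) *
          (2 * ((t : ℝ) + 2) / (((t : ℝ) + 1) * (((n : ℝ) + 1) * ((n : ℝ) + 2)))) := by
      rw [pow_add]
      field_simp
    rw [e3]
    apply mul_le_mul_of_nonneg_left _ hX
    rw [div_le_div_iff₀ (by positivity) (by positivity)]
    have hn0 : (0 : ℝ) ≤ n := by positivity
    have ht0 : (0 : ℝ) ≤ t := by positivity
    nlinarith [mul_nonneg hn0 ht0, mul_nonneg hn0 hn0, mul_nonneg (mul_nonneg hn0 hn0) ht0]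
  calc _ ≤ ∑ n ∈ Finset.range (t + 1), (2 / (p ^ 2 * ((t : ℝ) + 1) ^ 2)) *
          (p ^ (n + 2) * q ^ (t - n) * ((t + 2).choose (n + 2) : ℝ)) := Finset.sum_le_sum hterm
    _ = (2 / (p ^ 2 * ((t : ℝ) + 1) ^ 2)) * ∑ n ∈ Finset.range (t + 1),
          (p ^ (n + 2) * q ^ (t - n) * ((t + 2).choose (n + 2) : ℝ)) := by rw [Finset.mul_sum]
    _ ≤ (2 / (p ^ 2 * ((t : ℝ) + 1) ^ 2)) * 1 :=
        mul_le_mul_of_nonneg_left hsum (by positivity)
    _ = _ := mul_one _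

theorem taskNfour : TaskNfour := by
  intro A _ _ _ a b E p K hab hbE hp hp1 hK hb hE t
  have hq : 0 ≤ 1 - p := by linarith
  have hcomm : Commute (p • a) ((1 - p) • b) := (hab.smul_left p).smul_right (1 - p)
  rw [hcomm.add_pow, Finset.sum_mul]
  have hterm : ∀ n ∈ Finset.range (t + 1),
      ‖(p • a) ^ n * ((1 - p) • b) ^ (t - n) * (t.choose n : A) * E‖
        ≤ K * (p ^ n * (1 - p) ^ (t - n) * (t.choose n : ℝ) * (1 / ((n : ℝ) + 1) ^ 2)) := by
    intro n _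
    have e1 : (p • a) ^ n * ((1 - p) • b) ^ (t - n) * (t.choose n : A) * E
        = (p ^ n * (1 - p) ^ (t - n) * (t.choose n : ℝ)) • ((a ^ n * E) * b ^ (t - n)) := by
      rw [smul_pow, smul_pow]
      have e2 : (t.choose n : A) = (t.choose n : ℝ) • (1 : A) := by
        rw [Nat.cast_smul_eq_nsmul, nsmul_one]
      rw [e2]
      simp only [smul_mul_assoc, mul_smul_comm, smul_smul, mul_one]
      congr 1
      · ring
      · rw [mul_assoc, (hbE.pow_left (t - n)).eq, mul_assoc]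
    rw [e1, norm_smul, Real.norm_eq_abs, abs_of_nonneg (by positivity)]
    have h1 : ‖(a ^ n * E) * b ^ (t - n)‖ ≤ K / ((n : ℝ) + 1) ^ 2 := by
      refine (norm_mul_le _ _).trans ?_
      have h2 : ‖b ^ (t - n)‖ ≤ 1 := by
        refine (norm_pow_le b _).trans ?_
        exact pow_le_one₀ (norm_nonneg b) hb
      calc ‖a ^ n * E‖ * ‖b ^ (t - n)‖ ≤ ‖a ^ n * E‖ * 1 :=
            mul_le_mul_of_nonneg_left h2 (norm_nonneg _)
        _ ≤ K / ((n : ℝ) + 1) ^ 2 := by rw [mul_one]; exact hE n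
    calc p ^ n * (1 - p) ^ (t - n) * (t.choose n : ℝ) * ‖(a ^ n * E) * b ^ (t - n)‖
        ≤ p ^ n * (1 - p) ^ (t - n) * (t.choose n : ℝ) * (K / ((n : ℝ) + 1) ^ 2) :=
          mul_le_mul_of_nonneg_left h1 (by positivity)
      _ = _ := by ring
  refine (norm_sum_le _ _).trans ((Finset.sum_le_sum hterm).trans ?_)
  rw [← Finset.mul_sum]
  refine (mul_le_mul_of_nonneg_left (nfour_aux p (1 - p) hp hq (by ring) t) hK).trans (le_of_eq ?_)
  ring

end Pool.Agent.Q223.RO
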