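import Pool.Agent.Q223.RO.Stmts

set_option autoImplicit false

namespace Pool.Agent.Q223.RO

set_option linter.unusedSimpArgs false

open MeasureTheory Filter Topology Set

private theorem ni_shift {d : ℕ} (F h : V d → ℝ) (e : V d) :
    ∑' x, F (x + e) * h x = ∑' x, F x * h (x - e) := by
  rw [← (Equiv.addRight e).tsum_eq (fun x => F x * h (x - e))]
  simp

private theorem ni_lin {d : ℕ} (A B C : Fin d → V d → ℝ) (hA : ∀ i, Summable (A i))
    (hB : ∀ i, Summable (B i)) (hC : ∀ i, Summable (C i)) :
    ∑' x, ∑ i, (A i x + B i x - 2 * C i x) =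
      ∑ i, (∑' x, A i x + ∑' x, B i x - 2 * ∑' x, C i x) := by
  have := hasSum_sum (s := Finset.univ) (fun i _ =>
    ((hA i).hasSum.add (hB i).hasSum).sub ((hC i).hasSum.mul_left 2))
  exact this.tsum_eq

private theorem ni_parts {d : ℕ} (F h : V d → ℝ) (hF : (Function.support F).Finite) :
    ∑' x, Lap F x * h x = ∑' x, F x * Lap h x := by
  have hs : ∀ (e : V d), Summable (fun x => F (x + e) * h x) := by
    intro e
    apply summable_of_finite_support
    refine (hF.preimage (f := fun x => x + e) ((add_left_injective e).injOn)).subset ?_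
    intro x hx
    simp only [Function.mem_support, ne_eq, mul_eq_zero, not_or] at hx
    exact hx.1
  have hs' : ∀ e : V d, Summable (fun x => F x * h (x - e)) := by
    intro e
    apply summable_of_finite_support
    refine hF.subset ?_
    intro x hx
    simp only [Function.mem_support, ne_eq, mul_eq_zero, not_or] at hx
    exact hx.1
  have h1 : ∑' x, Lap F x * h x = ∑' x, ∑ i : Fin d, (F (x + Pi.single i 1) * h x +
      F (x + -Pi.single i 1) * h x - 2 * (F (x + 0) * h x)) := by
    congr 1
    funext x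
    unfold Lap
    rw [Finset.sum_mul]
    apply Finset.sum_congr rfl
    intro i _
    rw [← sub_eq_add_neg, add_zero]
    ring
  have h2 : ∑' x, F x * Lap h x = ∑' x, ∑ i : Fin d, (F x * h (x - Pi.single i 1) +
      F x * h (x - -Pi.single i 1) - 2 * (F x * h (x - 0))) := by
    congr 1
    funext x
    unfold Lap
    rw [Finset.mul_sum]
    apply Finset.sum_congr rfl
    intro i _
    rw [sub_neg_eq_add, sub_zero]
    ring
  rw [h1, h2, ni_lin _ _ _ (fun i => hs _) (fun i => hs _) (fun i => hs _),
    ni_lin _ _ _ (fun i => hs' _) (fun i => hs' _) (fun i => hs' _)]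
  simp_rw [ni_shift]

theorem taskNonInt : TaskNonInt := by
  intro d i₀ i₁ hne F hsum hLap
  by_contra hcon
  push Not at hcon
  have hfin : (Function.support F).Finite := by
    have h0 := hsum.tendsto_cofinite_zero
    have h1 : ∀ᶠ x in cofinite, |F x| < 1 := by
      have := h0.eventually (Metric.ball_mem_nhds 0 one_pos)
      filter_upwards [this] with x hx
      simpa [Real.dist_eq] using hx
    rw [Filter.eventually_cofinite] at h1
    refine h1.subset ?_
    intro x hx
    simp only [mem_setOf_eq, not_lt]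
    obtain ⟨k, hk⟩ := hcon x
    rw [Function.mem_support, hk] at hx
    have hk0 : k ≠ 0 := by rintro rfl; simp at hx
    rw [hk, ← Int.cast_abs]
    have : (1 : ℤ) ≤ |k| := Int.one_le_abs hk0
    exact_mod_cast this
  obtain ⟨l, hl⟩ : ∃ l : ℝ, l = 2 + √3 := ⟨_, rfl⟩
  have h3 : √3 * √3 = 3 := Real.mul_self_sqrt (by norm_num)
  have h3pos : 0 < √3 := by positivity
  have hlpos : 0 < l := by rw [hl]; positivity
  have hlinv : l⁻¹ = 2 - √3 := by
    apply inv_eq_of_mul_eq_one_right
    rw [hl]; nlinarith
  have hl4 : l + l⁻¹ = 4 := by rw [hlinv, hl]; ring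
  obtain ⟨h, hh⟩ : ∃ h : V d → ℝ, ∀ x, h x = l ^ (x i₀) * Real.cos (Real.pi / 2 * (x i₁ : ℝ)) :=
    ⟨_, fun _ => rfl⟩
  have hharm : ∀ x, Lap h x = 0 := by
    intro x
    have hi : ∀ i : Fin d, h (x + Pi.single i 1) + h (x - Pi.single i 1) - 2 * h x =
        (if i = i₀ then 2 * h x else 0) + (if i = i₁ then - 2 * h x else 0) := by
      intro i
      rw [hh, hh, hh]
      by_cases h0 : i = i₀
      · subst h0
        have e1 : (x + Pi.single i 1 : V d) i = x i + 1 := by simp
        have e2 : (x - Pi.single i 1 : V d) i = x i - 1 := by simp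
        have e3 : (x + Pi.single i 1 : V d) i₁ = x i₁ := by simp [Pi.single_apply, hne.symm]
        have e4 : (x - Pi.single i 1 : V d) i₁ = x i₁ := by simp [Pi.single_apply, hne.symm]
        rw [e1, e2, e3, e4, if_pos rfl, if_neg hne, zpow_add₀ hlpos.ne', zpow_sub₀ hlpos.ne', zpow_one]
        have : l ^ x i * l * Real.cos (Real.pi / 2 * (x i₁ : ℝ)) +
            l ^ x i / l * Real.cos (Real.pi / 2 * (x i₁ : ℝ)) =
            l ^ x i * (l + l⁻¹) * Real.cos (Real.pi / 2 * (x i₁ : ℝ)) := by
          rw [div_eq_mul_inv]; ring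
        rw [this, hl4]
        ring
      · by_cases h1 : i = i₁
        · subst h1
          have e1 : (x + Pi.single i 1 : V d) i = x i + 1 := by simp
          have e2 : (x - Pi.single i 1 : V d) i = x i - 1 := by simp
          have e3 : (x + Pi.single i 1 : V d) i₀ = x i₀ := by simp [Pi.single_apply, hne]
          have e4 : (x - Pi.single i 1 : V d) i₀ = x i₀ := by simp [Pi.single_apply, hne]
          rw [e1, e2, e3, e4, if_neg h0, if_pos rfl]
          push_cast
          rw [show Real.pi / 2 * ((x i : ℝ) + 1) = Real.pi / 2 * (x i : ℝ) + Real.pi / 2 by ring,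
            show Real.pi / 2 * ((x i : ℝ) - 1) = Real.pi / 2 * (x i : ℝ) - Real.pi / 2 by ring,
            Real.cos_add_pi_div_two, Real.cos_sub_pi_div_two]
          ring
        · have e1 : (x + Pi.single i 1 : V d) i₁ = x i₁ := by simp [Pi.single_apply, Ne.symm h1]
          have e2 : (x - Pi.single i 1 : V d) i₁ = x i₁ := by simp [Pi.single_apply, Ne.symm h1]
          have e3 : (x + Pi.single i 1 : V d) i₀ = x i₀ := by simp [Pi.single_apply, Ne.symm h0]
          have e4 : (x - Pi.single i 1 : V d) i₀ = x i₀ := by simp [Pi.single_apply, Ne.symm h0]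
          rw [e1, e2, e3, e4, if_neg h0, if_neg h1]
          ring
    unfold Lap
    simp_rw [hi]
    simp [Finset.sum_add_distrib]
  have hP : ∑' x, P i₀ x * h x = (l - l⁻¹) ^ 5 := by
    have hk : ∀ k ∈ Finset.range 6, HasSum (fun x : V d => (-1 : ℝ) ^ k * (Nat.choose 5 k : ℝ) *
        (if x = Pi.single i₀ (5 - 2 * (k : ℤ)) then 1 else 0) * h x)
        ((-1 : ℝ) ^ k * (Nat.choose 5 k : ℝ) * l ^ (5 - 2 * (k : ℤ))) := by
      intro k _
      have := hasSum_single (f := fun x : V d => (-1 : ℝ) ^ k * (Nat.choose 5 k : ℝ) *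
        (if x = Pi.single i₀ (5 - 2 * (k : ℤ)) then 1 else 0) * h x)
        (Pi.single i₀ (5 - 2 * (k : ℤ))) (by
          intro y hy
          rw [if_neg hy]; ring)
      rw [if_pos rfl, hh] at this
      have e1 : (Pi.single i₀ (5 - 2 * (k : ℤ)) : V d) i₀ = 5 - 2 * (k : ℤ) := by simp
      have e2 : (Pi.single i₀ (5 - 2 * (k : ℤ)) : V d) i₁ = 0 := by
        simp [Pi.single_apply, hne.symm]
      rw [e1, e2] at this
      simpa using this
    have hsm := hasSum_sum hk
    have : (fun x : V d => P i₀ x * h x) = fun x => ∑ k ∈ Finset.range 6,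
        (-1 : ℝ) ^ k * (Nat.choose 5 k : ℝ) *
        (if x = Pi.single i₀ (5 - 2 * (k : ℤ)) then 1 else 0) * h x := by
      funext x
      unfold P
      rw [Finset.sum_mul]
    rw [this, hsm.tsum_eq]
    simp only [Finset.sum_range_succ, Finset.sum_range_zero]
    norm_num [Nat.choose]
    have hne0 := hlpos.ne'
    field_simp
    ring
  have hpar := ni_parts F h hfin
  simp_rw [hharm, hLap] at hpar
  simp only [mul_zero, tsum_zero, neg_mul] at hpar
  rw [tsum_neg, hP] at hpar
  have hgt : l - l⁻¹ > 0 := by rw [hlinv, hl]; linarith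
  have := pow_pos hgt 5
  linarith

end Pool.Agent.Q223.RO
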