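import Pool.Agent.Q223.RO.Stmts

/-!
MP_c09afc_pr: task `TaskNonconst` of the blueprint in `Pool/Agent/Q223/RO/Stmts.lean`.
-/

set_option autoImplicit false

namespace Pool.Agent.Q223.RO

open MeasureTheory Filter Topology Set

theorem taskNonconst : TaskNonconst := by
  rintro d μ y z z' B φ m hμ hm hφ hTh hmap hpos hne ⟨c, hc⟩
  have hup : Measurable (fun ρ : Cfg d => Function.update ρ y z') := measurable_update_left
  have h1 : ∀ᵐ ρ ∂(μ.restrict {ρ | Has (insert (y, z') B) ρ}), Th φ ρ = c :=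
    ae_restrict_of_ae hc
  rw [← hmap] at h1
  have h2 : ∀ᵐ ρ ∂(μ.restrict {ρ | Has (insert (y, z) B) ρ}),
      Th φ (Function.update ρ y z') = c := ae_of_ae_map hup.aemeasurable h1
  have h3 : ∀ᵐ ρ ∂(μ.restrict {ρ | Has (insert (y, z) B) ρ}), Th φ ρ = c :=
    ae_restrict_of_ae hc
  have hSm : MeasurableSet {ρ : Cfg d | Has (insert (y, z) B) ρ} := by
    have : {ρ : Cfg d | Has (insert (y, z) B) ρ} =
        ⋂ e ∈ insert (y, z) B, {ρ : Cfg d | ρ e.1 = e.2} := by
      ext ρ
      simp [Has]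
    rw [this]
    refine Finset.measurableSet_biInter _ fun e _ => ?_
    have hm1 : Measurable (fun ρ : Cfg d => ρ e.1) := measurable_pi_apply e.1
    exact hm1 (measurableSet_singleton e.2)
  have h4 : ∀ᵐ ρ ∂(μ.restrict {ρ | Has (insert (y, z) B) ρ}),
      ρ ∈ {ρ : Cfg d | Has (insert (y, z) B) ρ} := ae_restrict_mem hSm
  have hne0 : μ.restrict {ρ | Has (insert (y, z) B) ρ} ≠ 0 := by
    intro h
    rw [Measure.restrict_eq_zero] at h
    rw [Measure.real, h] at hpos
    simp at hpos
  have : NeBot (ae (μ.restrict {ρ | Has (insert (y, z) B) ρ})) := ae_neBot.2 hne0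
  obtain ⟨ρ, ⟨h2, h3⟩, h4⟩ := ((h2.and h3).and h4).exists
  have hy : ρ y = z := h4 (y, z) (Finset.mem_insert_self _ _)
  have hs : ∀ ρ : Cfg d, Summable (fun x => φ x (ρ x)) := fun ρ =>
    Summable.of_norm_bounded hm (fun x => by simpa using hφ x (ρ x))
  have hH : H φ (Function.update ρ y z') = H φ ρ + (φ y z' - φ y z) := by
    unfold H
    have e : (fun x => φ x (Function.update ρ y z' x)) =
        fun x => φ x (ρ x) + (if x = y then (φ y z' - φ y z) else 0) := by
      funext x
      by_cases hx : x = y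
      · subst hx
        simp [hy]
      · simp [hx]
    rw [e, Summable.tsum_add (hs ρ) (hasSum_ite_eq y _).summable, tsum_ite_eq]
  have hE : Th φ (Function.update ρ y z') =
      Th φ ρ * Complex.exp (2 * Real.pi * Complex.I * ((φ y z' - φ y z : ℝ) : ℂ)) := by
    unfold Th
    rw [hH, ← Complex.exp_add]
    congr 1
    push_cast
    ring
  rw [h2, h3] at hE
  have hc0 : c ≠ 0 := by
    rw [← h3]
    exact Complex.exp_ne_zero _
  apply hne
  have : c * Complex.exp (2 * Real.pi * Complex.I * ((φ y z' - φ y z : ℝ) : ℂ)) = c * 1 := by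
    rw [← hE, mul_one]
  exact mul_left_cancel₀ hc0 this

end Pool.Agent.Q223.RO
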