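import Pool.Agent.Q223.RO.Stmts

set_option autoImplicit false

namespace Pool.Agent.Q223.RO

theorem taskNthree : TaskNthree := by
  intro hBin hNtwo A _ _ _ Q hQ n
  have hc1 : ‖((1 / 2 : ℝ) • (1 + Q))‖ ≤ 1 := by
    rw [norm_smul]
    have h := norm_add_le (1 : A) Q
    rw [norm_one] at h
    have h2 : ‖(1 / 2 : ℝ)‖ = 1 / 2 := by norm_num
    rw [h2]
    linarith
  have hcom : Commute ((1 / 2 : ℝ) • (1 + Q)) (Q - 1) := by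
    apply Commute.smul_left
    exact (Commute.one_left _).add_left ((Commute.refl Q).sub_right (Commute.one_right Q))
  have hpow : ∀ m : ℕ, ((1 / 2 : ℝ) • (1 + Q)) ^ m = ((1 / 2 : ℝ) ^ m) • (1 + Q) ^ m := fun m => by
    rw [smul_pow]
  generalize hc : ((1 / 2 : ℝ) • (1 + Q)) = c at hc1 hcom hpow ⊢
  have h1 : c ^ n * (Q - 1) ^ 4 = c ^ (n % 4) * (c ^ (n / 4) * (Q - 1)) ^ 4 := by
    rw [(hcom.pow_left (n / 4)).mul_pow 4, ← pow_mul, ← mul_assoc, ← pow_add]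
    congr 2
    omega
  have h2 : ‖c ^ (n / 4) * (Q - 1)‖ ^ 2 * ((n / 4 : ℕ) + 1 : ℝ) ≤ 4 := by
    have h3 := hNtwo A Q hQ (n / 4)
    have h4 := hBin (n / 4)
    rw [hpow, smul_mul_assoc, norm_smul, mul_pow]
    have h5 : ‖((1 / 2 : ℝ) ^ (n / 4))‖ ^ 2 = 1 / 4 ^ (n / 4) := by
      have h6 : ((1 / 2 : ℝ) ^ 2) = 1 / 4 := by norm_num
      rw [Real.norm_eq_abs, sq_abs, ← pow_mul, mul_comm, pow_mul, h6, one_div_pow]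
    rw [h5]
    have h6 : (0 : ℝ) < 4 ^ (n / 4) := by positivity
    have h7 : ‖(1 + Q) ^ (n / 4) * (Q - 1)‖ ^ 2 ≤ (2 * ((n / 4).choose (n / 4 / 2) : ℝ)) ^ 2 :=
      pow_le_pow_left₀ (norm_nonneg _) h3 2
    have h8 : ‖(1 + Q) ^ (n / 4) * (Q - 1)‖ ^ 2 * ((n / 4 : ℕ) + 1 : ℝ) ≤ 4 * 4 ^ (n / 4) := by
      calc ‖(1 + Q) ^ (n / 4) * (Q - 1)‖ ^ 2 * ((n / 4 : ℕ) + 1 : ℝ)
          ≤ (2 * ((n / 4).choose (n / 4 / 2) : ℝ)) ^ 2 * ((n / 4 : ℕ) + 1 : ℝ) :=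
            mul_le_mul_of_nonneg_right h7 (by positivity)
        _ = 4 * (((n / 4).choose (n / 4 / 2) : ℝ) ^ 2 * ((n / 4 : ℕ) + 1 : ℝ)) := by ring
        _ ≤ 4 * 4 ^ (n / 4) := by linarith
    calc 1 / 4 ^ (n / 4) * ‖(1 + Q) ^ (n / 4) * (Q - 1)‖ ^ 2 * ((n / 4 : ℕ) + 1 : ℝ)
        = (‖(1 + Q) ^ (n / 4) * (Q - 1)‖ ^ 2 * ((n / 4 : ℕ) + 1 : ℝ)) / 4 ^ (n / 4) := by ring
      _ ≤ (4 * 4 ^ (n / 4)) / 4 ^ (n / 4) := div_le_div_of_nonneg_right h8 h6.le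
      _ = 4 := by field_simp
  have h9 : ‖c ^ n * (Q - 1) ^ 4‖ ≤ ‖c ^ (n / 4) * (Q - 1)‖ ^ 4 := by
    rw [h1]
    calc ‖c ^ (n % 4) * (c ^ (n / 4) * (Q - 1)) ^ 4‖
        ≤ ‖c ^ (n % 4)‖ * ‖(c ^ (n / 4) * (Q - 1)) ^ 4‖ := norm_mul_le _ _
      _ ≤ 1 * ‖c ^ (n / 4) * (Q - 1)‖ ^ 4 := by
          apply mul_le_mul _ (norm_pow_le _ _) (norm_nonneg _) zero_le_one
          exact (norm_pow_le _ _).trans (pow_le_one₀ (norm_nonneg _) hc1)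
      _ = _ := one_mul _
  have hx : 0 ≤ ‖c ^ (n / 4) * (Q - 1)‖ := norm_nonneg _
  generalize ‖c ^ (n / 4) * (Q - 1)‖ = x at h2 h9 hx
  have h10 : ((n : ℝ) + 1) ≤ 4 * ((n / 4 : ℕ) + 1 : ℝ) := by
    have : n + 1 ≤ 4 * (n / 4 + 1) := by omega
    exact_mod_cast this
  have h11 : 0 < (n : ℝ) + 1 := by positivity
  rw [le_div_iff₀ (by positivity)]
  have h12 : x ^ 2 * ((n : ℝ) + 1) ≤ 16 := by nlinarith [sq_nonneg x]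
  have h13 : 0 ≤ x ^ 2 * ((n : ℝ) + 1) := by positivity
  calc ‖c ^ n * (Q - 1) ^ 4‖ * ((n : ℝ) + 1) ^ 2 ≤ x ^ 4 * ((n : ℝ) + 1) ^ 2 :=
        mul_le_mul_of_nonneg_right h9 (by positivity)
    _ = (x ^ 2 * ((n : ℝ) + 1)) ^ 2 := by ring
    _ ≤ 16 ^ 2 := pow_le_pow_left₀ h13 h12 2
    _ = 256 := by norm_num

end Pool.Agent.Q223.RO
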