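import Pool.Agent.Q223.RO.Stmts

set_option autoImplicit false

namespace Pool.Agent.Q223.RO

theorem choose_up {n k : ℕ} (h : k < n / 2) : n.choose k ≤ n.choose (k + 1) :=
  Nat.choose_le_succ_of_lt_half_left h

theorem choose_down {n k : ℕ} (h : n / 2 ≤ k) : n.choose (k + 1) ≤ n.choose k := by
  have h1 := Nat.choose_succ_right_eq n k
  have h2 : n - k ≤ k + 1 := by omega
  have h3 : n.choose (k + 1) * (k + 1) ≤ n.choose k * (k + 1) := by
    rw [h1]
    exact Nat.mul_le_mul_left _ h2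
  exact Nat.le_of_mul_le_mul_right h3 (Nat.succ_pos k)

theorem sum_diff (n : ℕ) :
    ∑ k ∈ Finset.range (n + 1), |(n.choose k : ℝ) - n.choose (k + 1)| =
      2 * (n.choose (n / 2) : ℝ) - 1 := by
  have hA : ∀ j, j ≤ n / 2 → ∑ k ∈ Finset.range j, |(n.choose k : ℝ) - n.choose (k + 1)| =
      n.choose j - 1 := by
    intro j
    induction j with
    | zero => intro _; simp
    | succ j ih =>
      intro hj
      have h1 : (n.choose j : ℝ) ≤ n.choose (j + 1) := by exact_mod_cast choose_up (by omega)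
      rw [Finset.sum_range_succ, ih (by omega), abs_of_nonpos (by linarith)]
      ring
  have hB : ∀ j, n / 2 ≤ j → ∑ k ∈ Finset.range j, |(n.choose k : ℝ) - n.choose (k + 1)| =
      2 * (n.choose (n / 2) : ℝ) - 1 - n.choose j := by
    intro j hj
    induction j, hj using Nat.le_induction with
    | base =>
      rw [hA _ le_rfl]
      ring
    | succ j hj ih =>
      have h1 : (n.choose (j + 1) : ℝ) ≤ n.choose j := by exact_mod_cast choose_down hj
      rw [Finset.sum_range_succ, ih, abs_of_nonneg (by linarith)]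
      ring
  rw [hB (n + 1) (by omega), Nat.choose_succ_self, Nat.cast_zero, sub_zero]

theorem taskNtwo : TaskNtwo := by
  intro A _ _ _ Q hQ n
  have hpow : (1 + Q) ^ n = ∑ k ∈ Finset.range (n + 1), (n.choose k : ℝ) • Q ^ k := by
    rw [add_comm, (Commute.one_right Q).add_pow]
    refine Finset.sum_congr rfl fun k _ => ?_
    rw [one_pow, mul_one, ← (Nat.cast_commute (n.choose k) (Q ^ k)).eq, Nat.cast_smul_eq_nsmul,
      nsmul_eq_mul]
  have hprod : (1 + Q) ^ n * (Q - 1) =
      ∑ k ∈ Finset.range (n + 1), ((n.choose k : ℝ) - n.choose (k + 1)) • Q ^ (k + 1) - 1 := by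
    have h1 : (1 + Q) ^ n * (Q - 1) =
        ∑ k ∈ Finset.range (n + 1), (n.choose k : ℝ) • Q ^ (k + 1) -
          ∑ k ∈ Finset.range (n + 1), (n.choose k : ℝ) • Q ^ k := by
      rw [mul_sub, mul_one, hpow, Finset.sum_mul]
      congr 1
      refine Finset.sum_congr rfl fun k _ => ?_
      rw [smul_mul_assoc, pow_succ]
    have h2 : ∑ k ∈ Finset.range (n + 1), (n.choose k : ℝ) • Q ^ k =
        ∑ k ∈ Finset.range (n + 1), (n.choose (k + 1) : ℝ) • Q ^ (k + 1) + 1 := by
      have h3 := Finset.sum_range_succ (fun k => (n.choose k : ℝ) • Q ^ k) (n + 1)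
      have h4 := Finset.sum_range_succ' (fun k => (n.choose k : ℝ) • Q ^ k) (n + 1)
      rw [h3, Nat.choose_succ_self, Nat.cast_zero, zero_smul, add_zero] at h4
      rw [h4]
      simp
    rw [h1, h2, ← sub_sub, ← Finset.sum_sub_distrib]
    congr 1
    refine Finset.sum_congr rfl fun k _ => ?_
    rw [sub_smul]
  have hQk : ∀ k : ℕ, ‖Q ^ k‖ ≤ 1 := fun k => (norm_pow_le Q k).trans (pow_le_one₀ (norm_nonneg _) hQ)
  rw [hprod]
  have h5 : ‖∑ k ∈ Finset.range (n + 1), ((n.choose k : ℝ) - n.choose (k + 1)) • Q ^ (k + 1)‖ ≤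
      ∑ k ∈ Finset.range (n + 1), |(n.choose k : ℝ) - n.choose (k + 1)| := by
    refine norm_sum_le_of_le _ fun k _ => ?_
    rw [norm_smul, Real.norm_eq_abs]
    exact mul_le_of_le_one_right (abs_nonneg _) (hQk _)
  have h6 := norm_sub_le (∑ k ∈ Finset.range (n + 1),
    ((n.choose k : ℝ) - n.choose (k + 1)) • Q ^ (k + 1)) (1 : A)
  rw [norm_one] at h6
  rw [sum_diff] at h5
  linarith

end Pool.Agent.Q223.RO
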