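import Pool.Agent.Q223.RO.Stmts

set_option autoImplicit false

namespace Pool.Agent.Q223.RO

/-- chains of length `n` from `x` to `w` -/
private def parLn {α : Type} (r : α → α → Prop) (w : α) : ℕ → α → Prop
  | 0, x => x = w
  | n + 1, x => ∃ y, r x y ∧ parLn r w n y

private theorem parLn_exists {α : Type} (r : α → α → Prop) (w x : α) (h : Relation.ReflTransGen r x w) :
    ∃ n, parLn r w n x := by
  induction h using Relation.ReflTransGen.head_induction_on with
  | refl => exact ⟨0, rfl⟩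
  | head h1 _ ih =>
    obtain ⟨n, hn⟩ := ih
    exact ⟨n + 1, _, h1, hn⟩

theorem taskPar : TaskPar := by
  classical
  intro α R E w hE
  set r : α → α → Prop := fun u v => R u v ∧ u ∈ E ∧ v ∈ E with hr
  let h : α → ℕ := fun x => sInf {n | parLn r w n x}
  have key : ∀ x, x ∈ E → x ≠ w → ∃ y, (R x y ∧ y ∈ E) ∧ h y < h x := by
    intro x hx hxw
    have hne : {n | parLn r w n x}.Nonempty := parLn_exists r w x (hE x hx)
    have hmem : parLn r w (h x) x := Nat.sInf_mem hne
    obtain ⟨m, hm⟩ : ∃ m, h x = m + 1 := by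
      rcases Nat.eq_zero_or_pos (h x) with h0 | hpos
      · rw [h0] at hmem
        exact absurd hmem hxw
      · exact ⟨h x - 1, by omega⟩
    rw [hm] at hmem
    obtain ⟨y, hy, hmy⟩ := hmem
    refine ⟨y, ⟨hy.1, hy.2.2⟩, ?_⟩
    have : h y ≤ m := Nat.sInf_le hmy
    omega
  refine ⟨fun x => if hx : x ∈ E ∧ x ≠ w then (key x hx.1 hx.2).choose else x, h, ?_⟩
  intro x hx hxw
  have hs := (key x hx hxw).choose_spec
  simp only [hx, hxw, ne_eq, not_false_eq_true, and_self, dite_true]
  exact ⟨hs.1.1, hs.1.2, hs.2⟩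

end Pool.Agent.Q223.RO
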