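import Mathlib
import Pool.Agent.Q223.RO.Stmts

set_option autoImplicit false

namespace Pool.Agent.Q223.RO

open MeasureTheory Filter Topology Set

namespace PhaseAux

open Classical in
/-- the neighbours -/
noncomputable def Nf {d : ℕ} (x : V d) : Finset (V d) :=
  (Finset.univ.image (fun i : Fin d => x + Pi.single i 1)) ∪
    (Finset.univ.image (fun i : Fin d => x - Pi.single i 1))

theorem mem_Nf {d : ℕ} (x y : V d) : y ∈ Nf x ↔ Adj x y := by
  unfold Nf Adj
  simp only [Finset.mem_union, Finset.mem_image, Finset.mem_univ, true_and]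
  constructor
  · rintro (⟨i, h⟩ | ⟨i, h⟩)
    · exact ⟨i, Or.inl h.symm⟩
    · exact ⟨i, Or.inr h.symm⟩
  · rintro ⟨i, h | h⟩
    · exact Or.inl ⟨i, h.symm⟩
    · exact Or.inr ⟨i, h.symm⟩

theorem sum_Nf {d : ℕ} (x : V d) (h : V d → ℝ) :
    ∑ z ∈ Nf x, h z = ∑ i, (h (x + Pi.single i 1) + h (x - Pi.single i 1)) := by
  classical
  unfold Nf
  rw [Finset.sum_union, Finset.sum_image, Finset.sum_image, Finset.sum_add_distrib]
  · intro i _ j _ hij
    have h1 : (Pi.single i 1 : Fin d → ℤ) = Pi.single j 1 := sub_right_injective hij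
    by_contra hne
    have h2 := congrFun h1 i
    simp [hne] at h2
  · intro i _ j _ hij
    have h1 : (Pi.single i 1 : Fin d → ℤ) = Pi.single j 1 := add_right_injective x hij
    by_contra hne
    have h2 := congrFun h1 i
    simp [hne] at h2
  · rw [Finset.disjoint_left]
    intro z hz hz'
    simp only [Finset.mem_image, Finset.mem_univ, true_and] at hz hz'
    obtain ⟨i, hi⟩ := hz
    obtain ⟨j, hj⟩ := hz'
    have h1 := congrFun (hi.trans hj.symm) i
    simp only [Pi.add_apply, Pi.single_eq_same, Pi.sub_apply] at h1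
    by_cases hij : i = j
    · subst hij
      simp at h1
      omega
    · rw [Pi.single_eq_of_ne hij] at h1
      omega

/-- one vertex: `N` a finite set, `σ` with a single orbit -/
theorem one {α : Type} (N : Finset α) (σ : α → α) (hσ : ∀ y ∈ N, σ y ∈ N)
    (ho : ∀ y ∈ N, ∀ z ∈ N, ∃ k : ℕ, σ^[k] y = z) (g : α → ℝ) (hg : ∃ k : ℤ, ∑ z ∈ N, g z = k) :
    ∃ φ : α → ℝ, (∀ y ∈ N, ∃ k : ℤ, φ (σ y) - φ y + g (σ y) = k) ∧
      ∀ y, |φ y| ≤ ∑ z ∈ N, |g z| := by
  classical
  rcases N.eq_empty_or_nonempty with hN | ⟨y0, hy0⟩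
  · subst hN
    exact ⟨fun _ => 0, by simp, by simp⟩
  have hit : ∀ k : ℕ, ∀ y ∈ N, σ^[k] y ∈ N := by
    intro k
    induction k with
    | zero => intro y hy; exact hy
    | succ k ih =>
      intro y hy
      rw [Function.iterate_succ_apply]
      exact ih _ (hσ y hy)
  have hsurj : Set.SurjOn σ N N := by
    intro z hz
    obtain ⟨k, hk⟩ := ho (σ z) (hσ z hz) z hz
    refine ⟨σ^[k] z, hit k z hz, ?_⟩
    have h5 : σ (σ^[k] z) = σ^[k + 1] z := (Function.iterate_succ_apply' σ k z).symm
    rw [h5, Function.iterate_succ_apply]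
    exact hk
  have hinj : Set.InjOn σ N := Finset.injOn_of_surjOn_of_card_le σ (fun y hy => hσ y hy) hsurj le_rfl
  let P : α → ℕ → Prop := fun z k => σ^[k] y0 = z
  let K : α → ℕ := fun z => if h : ∃ k, P z k then Nat.find h else 0
  have hK : ∀ z ∈ N, σ^[K z] y0 = z := by
    intro z hz
    have h : ∃ k, P z k := ho y0 hy0 z hz
    show σ^[if h : ∃ k, P z k then Nat.find h else 0] y0 = z
    rw [dif_pos h]
    exact Nat.find_spec h
  have hmin : ∀ z ∈ N, ∀ j, σ^[j] y0 = z → K z ≤ j := by
    intro z hz j hj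
    have h : ∃ k, P z k := ho y0 hy0 z hz
    show (if h : ∃ k, P z k then Nat.find h else 0) ≤ j
    rw [dif_pos h]
    exact Nat.find_min' h hj
  have hinj2 : ∀ z ∈ N, ∀ i j, i < j → j ≤ K z → σ^[i] y0 ≠ σ^[j] y0 := by
    intro z hz i j hij hj he
    have h1 : σ^[K z - (j - i)] y0 = z := by
      have e1 : K z - (j - i) = (K z - j) + i := by omega
      rw [e1, Function.iterate_add_apply, he, ← Function.iterate_add_apply]
      have e2 : K z - j + j = K z := by omega
      rw [e2]
      exact hK z hz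
    have := hmin z hz _ h1
    omega
  have hinj3 : ∀ z ∈ N, ∀ m, m ≤ K z + 1 → Set.InjOn (fun i => σ^[i] y0) (Finset.range m) := by
    intro z hz m hm i hi j hj hij
    simp only [Finset.coe_range, Set.mem_Iio] at hi hj
    by_contra hne
    rcases lt_or_gt_of_ne hne with h | h
    · exact hinj2 z hz i j h (by omega) hij
    · exact hinj2 z hz j i h (by omega) hij.symm
  let φ : α → ℝ := fun z => if z ∈ N then - ∑ i ∈ Finset.range (K z), g (σ^[i + 1] y0) else 0
  refine ⟨φ, ?_, ?_⟩
  · intro y hy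
    have hsy := hσ y hy
    have e1 : φ y = - ∑ i ∈ Finset.range (K y), g (σ^[i + 1] y0) := if_pos hy
    have e2 : φ (σ y) = - ∑ i ∈ Finset.range (K (σ y)), g (σ^[i + 1] y0) := if_pos hsy
    have e3 : σ^[K y + 1] y0 = σ y := by
      rw [Function.iterate_succ_apply', hK y hy]
    have hle := hmin (σ y) hsy _ e3
    rcases Nat.lt_or_ge (K (σ y)) (K y + 1) with hlt | hge
    · have hz : K (σ y) = 0 := by
        by_contra hne
        obtain ⟨j, hj⟩ := Nat.exists_eq_succ_of_ne_zero hne
        have h1 : σ (σ^[j] y0) = σ y := by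
          have h5 : σ (σ^[j] y0) = σ^[j + 1] y0 := (Function.iterate_succ_apply' σ j y0).symm
          rw [h5, ← Nat.succ_eq_add_one, ← hj]
          exact hK _ hsy
        have h2 := hinj (hit j y0 hy0) hy h1
        have h3 := hmin y hy j h2
        omega
      have hsy0 : σ y = y0 := by
        have := hK _ hsy
        rw [hz] at this
        exact this.symm
      have hper : Function.IsPeriodicPt σ (K y + 1) y0 := by
        show σ^[K y + 1] y0 = y0
        rw [e3, hsy0]
      have himg : (Finset.range (K y + 1)).image (fun i => σ^[i] y0) = N := by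
        ext z
        simp only [Finset.mem_image, Finset.mem_range]
        constructor
        · rintro ⟨i, _, rfl⟩
          exact hit i y0 hy0
        · intro hz
          obtain ⟨m, hm⟩ := ho y0 hy0 z hz
          refine ⟨m % (K y + 1), Nat.mod_lt _ (by omega), ?_⟩
          rw [hper.iterate_mod_apply]
          exact hm
      have hsum : ∑ z ∈ N, g z = ∑ i ∈ Finset.range (K y + 1), g (σ^[i] y0) := by
        rw [← himg]
        refine Finset.sum_image ?_
        intro i hi j hj hij
        exact hinj3 y hy (K y + 1) le_rfl hi hj hij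
      obtain ⟨k, hk⟩ := hg
      refine ⟨k, ?_⟩
      rw [← hk, hsum, Finset.sum_range_succ', e1, e2, hz, hsy0]
      simp
    · have h1 : K (σ y) = K y + 1 := le_antisymm hle hge
      refine ⟨0, ?_⟩
      rw [e1, e2, h1, Finset.sum_range_succ, e3]
      simp
  · intro y
    by_cases hy : y ∈ N
    · have e1 : φ y = - ∑ i ∈ Finset.range (K y), g (σ^[i + 1] y0) := if_pos hy
      rw [e1, abs_neg]
      refine (Finset.abs_sum_le_sum_abs _ _).trans ?_
      have h1 : ∑ i ∈ Finset.range (K y), |g (σ^[i + 1] y0)| =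
          ∑ z ∈ (Finset.range (K y)).image (fun i => σ^[i + 1] y0), |g z| := by
        rw [Finset.sum_image]
        intro i hi j hj hij
        simp only [Finset.coe_range, Set.mem_Iio] at hi hj
        have hi' : i + 1 ∈ (Finset.range (K y + 1) : Set ℕ) := by
          simp only [Finset.coe_range, Set.mem_Iio]; omega
        have hj' : j + 1 ∈ (Finset.range (K y + 1) : Set ℕ) := by
          simp only [Finset.coe_range, Set.mem_Iio]; omega
        have h2 := hinj3 y hy (K y + 1) le_rfl hi' hj' hij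
        omega
      rw [h1]
      refine Finset.sum_le_sum_of_subset_of_nonneg ?_ (fun _ _ _ => abs_nonneg _)
      intro z hz
      simp only [Finset.mem_image] at hz
      obtain ⟨i, _, rfl⟩ := hz
      exact hit _ y0 hy0
    · have e1 : φ y = 0 := if_neg hy
      rw [e1, abs_zero]
      exact Finset.sum_nonneg fun _ _ => abs_nonneg _

end PhaseAux

open PhaseAux in
theorem taskPhase : TaskPhase := by
  intro d τ hτ F hF
  have h1 : ∀ x : V d, ∃ φ : V d → ℝ, (∀ y ∈ Nf x, ∃ k : ℤ, φ (τ x y) - φ y + (F (τ x y) - F x) = k) ∧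
      ∀ y, |φ y| ≤ ∑ z ∈ Nf x, |F z - F x| := by
    intro x
    refine one (Nf x) (τ x) (fun y hy => ?_) (fun y hy z hz => ?_) (fun z => F z - F x) ?_
    · rw [mem_Nf] at hy ⊢
      exact (hτ x y hy).1
    · rw [mem_Nf] at hy hz
      exact (hτ x y hy).2 z hz
    · obtain ⟨k, hk⟩ := hF x
      refine ⟨k, ?_⟩
      rw [sum_Nf, ← hk]
      unfold Lap
      exact Finset.sum_congr rfl (fun i _ => by ring)
  choose φ hφ using h1
  refine ⟨φ, fun x y hy => (hφ x).1 y ((mem_Nf x y).2 hy), fun x y => ?_⟩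
  refine ((hφ x).2 y).trans (le_of_eq ?_)
  rw [sum_Nf]
  rfl

end Pool.Agent.Q223.RO
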