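import Pool.Agent.Q223.RO.Stmts

/-!
MP_c09afc_pr: task `TaskSep` of the blueprint in `Pool/Agent/Q223/RO/Stmts.lean`.
-/

set_option autoImplicit false

namespace Pool.Agent.Q223.RO

open MeasureTheory Filter Topology Set

theorem taskSep : TaskSep := by
  intro Ω _ μ g hμ hg hnc
  by_contra hcon
  push Not at hcon
  apply hnc
  obtain ⟨c, hc⟩ := Filter.exists_eventuallyEq_const_of_forall_separating (l := ae μ) (f := g)
    MeasurableSet (by
      intro U hU
      by_cases h0 : μ (g ⁻¹' U) = 0
      · right
        have h2 : {a | ¬ g a ∉ U} = g ⁻¹' U := by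
          ext a
          simp
        rw [ae_iff, h2]
        exact h0
      · left
        have h1 := hcon U hU h0
        rw [← mem_ae_iff_prob_eq_one (hg hU)] at h1
        exact h1)
  exact ⟨c, hc⟩

end Pool.Agent.Q223.RO
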