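import Pool.Agent.Q223.RO.Stmts

set_option autoImplicit false

namespace Pool.Agent.Q223.RO

open MeasureTheory Filter Topology Set

theorem taskSumm : TaskSumm := by
  intro d F hF
  unfold mF
  apply summable_sum
  intro i _
  have i1 : Function.Injective (fun x : V d => x + Pi.single i 1) :=
    fun a b h => add_right_cancel h
  have i2 : Function.Injective (fun x : V d => x - Pi.single i 1) :=
    fun a b h => sub_left_inj.1 h
  have h1 : Summable fun x : V d => F (x + Pi.single i 1) := hF.comp_injective i1
  have h2 : Summable fun x : V d => F (x - Pi.single i 1) := hF.comp_injective i2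
  exact (h1.sub hF).abs.add (h2.sub hF).abs

end Pool.Agent.Q223.RO
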