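import Pool.Agent.Q223.RO.Stmts

set_option autoImplicit false

namespace Pool.Agent.Q223.RO

namespace Surg

theorem mem_box {d : ℕ} {y x : V d} : x ∈ box y ↔ ∀ i, y i - 1 ≤ x i ∧ x i ≤ y i + 1 := by
  unfold box
  rw [Finset.mem_Icc, Pi.le_def, Pi.le_def]
  constructor
  · intro h i
    exact ⟨h.1 i, h.2 i⟩
  · intro h
    exact ⟨fun i => (h i).1, fun i => (h i).2⟩

theorem self_mem_box {d : ℕ} (y : V d) : y ∈ box y := by
  rw [mem_box]
  intro i
  constructor <;> omega

theorem adj_symm {d : ℕ} {x y : V d} (h : Adj x y) : Adj y x := by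
  obtain ⟨i, h | h⟩ := h
  · exact ⟨i, Or.inr (by rw [h]; simp)⟩
  · exact ⟨i, Or.inl (by rw [h]; simp)⟩

theorem adj_mem_box {d : ℕ} {y z : V d} (h : Adj y z) : z ∈ box y := by
  rw [mem_box]
  intro j
  obtain ⟨i, h | h⟩ := h
  · rw [h, Pi.add_apply]
    by_cases hij : j = i
    · subst hij
      rw [Pi.single_eq_same]
      constructor <;> omega
    · rw [Pi.single_eq_of_ne hij]
      constructor <;> omega
  · rw [h, Pi.sub_apply]
    by_cases hij : j = i
    · subst hij
      rw [Pi.single_eq_same]
      constructor <;> omega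
    · rw [Pi.single_eq_of_ne hij]
      constructor <;> omega

theorem adj_ne {d : ℕ} {y z : V d} (h : Adj y z) : z ≠ y := by
  rintro rfl
  obtain ⟨i, h | h⟩ := h
  · have := congrFun h i
    simp at this
  · have := congrFun h i
    simp at this
    omega

end Surg

open Surg in
theorem taskSurg : TaskSurg := by
  classical
  intro hConn hPar d Λ y f hd hbox hf
  obtain ⟨h1, h2, h3⟩ := hf
  have hyΛ : y ∈ Λ := hbox (self_mem_box y)
  -- the last visit to the box
  have hinj : ∀ a b : ℕ, f^[a] y ∈ box y → f^[b] y ∈ box y → f^[a] y = f^[b] y → a ≤ b → a = b := by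
    intro a b ha _ hab hle
    by_contra hne
    have hlt : 1 ≤ b - a := by omega
    apply h3 _ (hbox ha) (b - a) hlt
    rw [← Function.iterate_add_apply, show b - a + a = b by omega]
    exact hab.symm
  have hfin : {n : ℕ | f^[n] y ∈ box y}.Finite := by
    apply Set.Finite.of_finite_image (f := fun n => f^[n] y)
    · exact (box y).finite_toSet.subset (by rintro _ ⟨n, hn, rfl⟩; exact hn)
    · intro a ha b hb hab
      rcases le_total a b with h | h
      · exact hinj a b ha hb hab h
      · exact (hinj b a hb ha hab.symm h).symm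
  obtain ⟨N, hN, hmax⟩ : ∃ N, f^[N] y ∈ box y ∧ ∀ n, f^[n] y ∈ box y → n ≤ N := by
    have hne : hfin.toFinset.Nonempty := ⟨0, by simpa using self_mem_box y⟩
    refine ⟨hfin.toFinset.max' hne, ?_, ?_⟩
    · simpa using hfin.toFinset.max'_mem hne
    · intro n hn
      exact hfin.toFinset.le_max' n (by simpa using hn)
  have hout : ∀ k, f^[N + (k + 1)] y ∉ box y := by
    intro k hk
    have := hmax _ hk
    omega
  have hN1 : 1 ≤ N := by
    by_contra h
    have h0 : N = 0 := by omega
    have := hout 0
    rw [h0] at this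
    apply this
    simpa using adj_mem_box (h2 y hyΛ)
  set w := f^[N] y with hw
  have hwy : w ≠ y := h3 y hyΛ N hN1
  have hfw : ∀ k, f^[k + 1] w ∉ box y := by
    intro k
    rw [hw, ← Function.iterate_add_apply, Nat.add_comm]
    exact hout k
  obtain ⟨p, h, hp⟩ := hPar (V d) Adj {x | x ∈ box y ∧ x ≠ y} w (fun x hx =>
    Relation.ReflTransGen.mono (fun a b hab => hab) _ _ (hConn d y x w hd hx.1 hx.2 hN hwy))
  -- a neighbour
  let i0 : Fin d := ⟨0, by omega⟩
  have hz0 : Adj y (y + Pi.single i0 1) := ⟨i0, Or.inl rfl⟩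
  set z0 : V d := y + Pi.single i0 1 with hz0def
  have hz0b : z0 ∈ box y := adj_mem_box hz0
  have hz0y : z0 ≠ y := adj_ne hz0
  let f' : Cfg d := fun x => if x = y then z0 else if x ∈ box y then (if x = w then f w else p x) else f x
  have f'y : f' y = z0 := by simp [f']
  have f'w : f' w = f w := by simp [f', hwy, hN]
  have f'p : ∀ x, x ∈ box y → x ≠ y → x ≠ w → f' x = p x := by
    intro x hx hxy hxw
    simp [f', hx, hxy, hxw]
  have f'o : ∀ x, x ∉ box y → f' x = f x := by
    intro x hx
    have hxy : x ≠ y := fun h => hx (h ▸ self_mem_box y)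
    simp [f', hx, hxy]
  -- from the box one gets to `w`
  have hreach : ∀ m x, x ∈ box y → x ≠ y → h x = m → ∃ k, f'^[k] x = w := by
    intro m
    induction m using Nat.strong_induction_on with
    | _ m ih =>
      intro x hx hxy hm
      by_cases hxw : x = w
      · exact ⟨0, hxw⟩
      · obtain ⟨_, hp2, hp3⟩ := hp x ⟨hx, hxy⟩ hxw
        obtain ⟨k, hk⟩ := ih (h (p x)) (hm ▸ hp3) (p x) hp2.1 hp2.2 rfl
        refine ⟨k + 1, ?_⟩
        rw [Function.iterate_succ_apply, f'p x hx hxy hxw]
        exact hk
  have hreach' : ∀ x, x ∈ box y → ∃ k, f'^[k] x = w := by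
    intro x hx
    by_cases hxy : x = y
    · obtain ⟨k, hk⟩ := hreach _ z0 hz0b hz0y rfl
      refine ⟨k + 1, ?_⟩
      rw [Function.iterate_succ_apply, hxy, f'y]
      exact hk
    · exact hreach _ x hx hxy rfl
  have hwit : ∀ k, f'^[k] w = f^[k] w := by
    intro k
    induction k with
    | zero => rfl
    | succ k ih =>
      rw [Function.iterate_succ_apply', Function.iterate_succ_apply', ih]
      cases k with
      | zero => exact f'w
      | succ k => exact f'o _ (hfw k)
  have hnocyc : ∀ x ∈ box y, ∀ n, 1 ≤ n → f'^[n] x ≠ x := by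
    intro x hx n hn hc
    obtain ⟨k, hk⟩ := hreach' x hx
    have : f'^[n] w = w := by
      rw [← hk, ← Function.iterate_add_apply, Nat.add_comm, Function.iterate_add_apply, hc]
    rw [hwit] at this
    obtain ⟨m, rfl⟩ : ∃ m, n = m + 1 := ⟨n - 1, by omega⟩
    have h5 := hfw m
    rw [this] at h5
    exact h5 hN
  refine ⟨f', ⟨?_, ?_, ?_⟩, f'o, ?_⟩
  · intro x hx
    rw [f'o x (fun h => hx (hbox h))]
    exact h1 x hx
  · intro x hx
    by_cases hxb : x ∈ box y
    · by_cases hxy : x = y
      · rw [hxy, f'y]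
        exact hz0
      · by_cases hxw : x = w
        · rw [hxw, f'w]
          exact h2 w (hbox hN)
        · rw [f'p x hxb hxy hxw]
          exact (hp x ⟨hxb, hxy⟩ hxw).1
    · rw [f'o x hxb]
      exact h2 x hx
  · intro x hx n hn hc
    by_cases hall : ∀ k, f'^[k] x ∉ box y
    · have key : ∀ k, f'^[k] x = f^[k] x := by
        intro k
        induction k with
        | zero => rfl
        | succ k ih =>
          rw [Function.iterate_succ_apply', Function.iterate_succ_apply', ← ih]
          exact f'o _ (hall k)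
      exact h3 x hx n hn ((key n).symm.trans hc)
    · push Not at hall
      obtain ⟨k, hk⟩ := hall
      apply hnocyc _ hk n hn
      rw [← Function.iterate_add_apply, Nat.add_comm, Function.iterate_add_apply, hc]
  · intro x hxe
    by_cases hxb : x ∈ box y
    · by_cases hxy : x = y
      · rw [hxy, f'y] at hxe
        exact hz0y hxe
      · by_cases hxw : x = w
        · rw [hxw, f'w] at hxe
          have := hfw 0
          rw [Function.iterate_succ_apply] at this
          exact this (by simpa using hxe ▸ self_mem_box y)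
        · rw [f'p x hxb hxy hxw] at hxe
          exact (hp x ⟨hxb, hxy⟩ hxw).2.1.2 hxe
    · rw [f'o x hxb] at hxe
      by_cases hxΛ : x ∈ Λ
      · have := h2 x hxΛ
        rw [hxe] at this
        exact hxb (adj_mem_box (adj_symm this))
      · rw [h1 x hxΛ] at hxe
        exact hxb (hxe ▸ self_mem_box y)

end Pool.Agent.Q223.RO
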