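import Pool.Agent.Q223.RO.Stmts

set_option autoImplicit false

open MeasureTheory Filter Topology Set

namespace Pool.Agent.Q223.RO

private lemma has_meas {d : ℕ} (B : Finset (V d × V d)) : MeasurableSet {ρ : Cfg d | Has B ρ} := by
  have h1 : {ρ : Cfg d | Has B ρ} = ⋂ e ∈ B, {ρ : Cfg d | ρ e.1 = e.2} := by
    ext ρ
    simp only [mem_ofPred_eq, mem_iInter]
    rfl
  rw [h1]
  refine Finset.measurableSet_biInter B fun e _ => ?_
  have h2 : Measurable (fun ρ : Cfg d => ρ e.1) := measurable_pi_apply e.1
  exact h2 (measurableSet_singleton e.2)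

private lemma gen_eq (d : ℕ) : (inferInstance : MeasurableSpace (Cfg d)) =
    MeasurableSpace.generateFrom {s | ∃ B : Finset (V d × V d), s = {ρ : Cfg d | Has B ρ}} := by
  refine le_antisymm ?_ ?_
  · refine iSup_le fun x => ?_
    rintro s ⟨t, ht, rfl⟩
    have h1 : (fun b : Cfg d => b x) ⁻¹' t = ⋃ v ∈ t, {ρ : Cfg d | ρ x = v} := by
      ext ρ
      simp
    rw [h1]
    refine MeasurableSet.biUnion (Set.to_countable t) fun v _ => ?_
    refine MeasurableSpace.measurableSet_generateFrom ⟨{(x, v)}, ?_⟩
    ext ρ
    simp [Has]
  · refine MeasurableSpace.generateFrom_le ?_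
    rintro s ⟨B, rfl⟩
    exact has_meas B

theorem taskSwap : TaskSwap := by
  classical
  intro d μ y z z' B hμ hB hh
  have hupd : Measurable (fun ρ : Cfg d => Function.update ρ y z') := measurable_update_left
  have hh' : ∀ B' : Finset (V d × V d), B ⊆ B' → (∀ e ∈ B', e.1 ≠ y) →
      μ {ρ | Has (insert (y, z) B') ρ} = μ {ρ | Has (insert (y, z') B') ρ} := by
    intro B' h1 h2
    have h3 := hh B' h1 h2
    rwa [Measure.real, Measure.real, ENNReal.toReal_eq_toReal_iff' (measure_ne_top _ _)
      (measure_ne_top _ _)] at h3
  refine ext_of_generate_finite _ (gen_eq d) ?_ ?_ ?_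
  · rintro _ ⟨B1, rfl⟩ _ ⟨B2, rfl⟩ -
    refine ⟨B1 ∪ B2, ?_⟩
    ext ρ
    simp only [mem_inter_iff, mem_ofPred_eq, Has, Finset.mem_union]
    constructor
    · rintro ⟨h1, h2⟩ e (he | he)
      · exact h1 e he
      · exact h2 e he
    · exact fun h => ⟨fun e he => h e (Or.inl he), fun e he => h e (Or.inr he)⟩
  · rintro _ ⟨B2, rfl⟩
    rw [Measure.map_apply hupd (has_meas B2), Measure.restrict_apply (hupd (has_meas B2)),
      Measure.restrict_apply (has_meas B2)]
    by_cases hbad : ∃ e ∈ B2, e.1 = y ∧ e.2 ≠ z'
    · obtain ⟨e, he, he1, he2⟩ := hbad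
      have e1 : (fun ρ : Cfg d => Function.update ρ y z') ⁻¹' {ρ | Has B2 ρ} ∩
          {ρ | Has (insert (y, z) B) ρ} = ∅ := by
        ext ρ
        simp only [mem_inter_iff, mem_preimage, mem_ofPred_eq, mem_empty_iff_false, iff_false]
        rintro ⟨h1, -⟩
        have h2 := h1 e he
        rw [he1, Function.update_self] at h2
        exact he2 h2.symm
      have e2 : {ρ : Cfg d | Has B2 ρ} ∩ {ρ | Has (insert (y, z') B) ρ} = ∅ := by
        ext ρ
        simp only [mem_inter_iff, mem_ofPred_eq, mem_empty_iff_false, iff_false]
        rintro ⟨h1, h2⟩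
        have h3 := h1 e he
        have h4 := h2 (y, z') (Finset.mem_insert_self _ _)
        rw [he1] at h3
        exact he2 (h3.symm.trans h4)
      rw [e1, e2]
    · push Not at hbad
      have hB' : ∀ e ∈ B ∪ B2.filter (fun e => e.1 ≠ y), e.1 ≠ y := by
        intro e he
        rcases Finset.mem_union.1 he with h | h
        · exact hB e h
        · exact (Finset.mem_filter.1 h).2
      have e1 : (fun ρ : Cfg d => Function.update ρ y z') ⁻¹' {ρ | Has B2 ρ} ∩
          {ρ | Has (insert (y, z) B) ρ} =
          {ρ | Has (insert (y, z) (B ∪ B2.filter (fun e => e.1 ≠ y))) ρ} := by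
        ext ρ
        simp only [mem_inter_iff, mem_preimage, mem_ofPred_eq]
        constructor
        · rintro ⟨h1, h2⟩ e he
          rcases Finset.mem_insert.1 he with h | h
          · rw [h]; exact h2 (y, z) (Finset.mem_insert_self _ _)
          · rcases Finset.mem_union.1 h with h | h
            · exact h2 e (Finset.mem_insert_of_mem h)
            · obtain ⟨h3, h4⟩ := Finset.mem_filter.1 h
              have h5 := h1 e h3
              rwa [Function.update_of_ne h4] at h5
        · intro h
          refine ⟨fun e he => ?_, fun e he => ?_⟩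
          · by_cases hy : e.1 = y
            · rw [hy, Function.update_self]
              exact (hbad e he hy).symm
            · rw [Function.update_of_ne hy]
              exact h e (Finset.mem_insert_of_mem (Finset.mem_union_right _
                (Finset.mem_filter.2 ⟨he, hy⟩)))
          · rcases Finset.mem_insert.1 he with h' | h'
            · rw [h']; exact h (y, z) (Finset.mem_insert_self _ _)
            · exact h e (Finset.mem_insert_of_mem (Finset.mem_union_left _ h'))
      have e2 : {ρ : Cfg d | Has B2 ρ} ∩ {ρ | Has (insert (y, z') B) ρ} =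
          {ρ | Has (insert (y, z') (B ∪ B2.filter (fun e => e.1 ≠ y))) ρ} := by
        ext ρ
        simp only [mem_inter_iff, mem_ofPred_eq]
        constructor
        · rintro ⟨h1, h2⟩ e he
          rcases Finset.mem_insert.1 he with h | h
          · rw [h]; exact h2 (y, z') (Finset.mem_insert_self _ _)
          · rcases Finset.mem_union.1 h with h | h
            · exact h2 e (Finset.mem_insert_of_mem h)
            · exact h1 e (Finset.mem_filter.1 h).1
        · intro h
          refine ⟨fun e he => ?_, fun e he => ?_⟩
          · by_cases hy : e.1 = y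
            · rw [hbad e he hy, hy]
              exact h (y, z') (Finset.mem_insert_self _ _)
            · exact h e (Finset.mem_insert_of_mem (Finset.mem_union_right _
                (Finset.mem_filter.2 ⟨he, hy⟩)))
          · rcases Finset.mem_insert.1 he with h' | h'
            · rw [h']; exact h (y, z') (Finset.mem_insert_self _ _)
            · exact h e (Finset.mem_insert_of_mem (Finset.mem_union_left _ h'))
      rw [e1, e2]
      exact hh' _ Finset.subset_union_left hB'
  · rw [Measure.map_apply hupd MeasurableSet.univ, preimage_univ, Measure.restrict_apply_univ,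
      Measure.restrict_apply_univ]
    exact hh' B (Finset.Subset.refl _) hB

end Pool.Agent.Q223.RO
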