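import Pool.Agent.Q223.RO.Stmts

set_option autoImplicit false

namespace Pool.Agent.Q223.RO

open MeasureTheory Filter Topology Set

theorem taskTrans_mem {W : Type} (e : W ≃ W) (f : lp (fun _ : W => ℝ) 1) :
    Memℓp (fun x : W => f (e x)) 1 := by
  have h1 := (memℓp_gen_iff (by norm_num : 0 < (1 : ENNReal).toReal)).1 f.2
  exact (memℓp_gen_iff (by norm_num : 0 < (1 : ENNReal).toReal)).2 (h1.comp_injective e.injective)

/-- composition with a bijection -/
noncomputable def taskTransLin {W : Type} (e : W ≃ W) :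
    (lp (fun _ : W => ℝ) 1) →ₗ[ℝ] (lp (fun _ : W => ℝ) 1) where
  toFun f := ⟨fun x => f (e x), taskTrans_mem e f⟩
  map_add' f g := rfl
  map_smul' c f := rfl

theorem taskTrans : TaskTrans := by
  intro W e
  refine ⟨(taskTransLin e).mkContinuous 1 ?_, fun f x => rfl, ?_⟩
  · intro f
    rw [one_mul]
    apply le_of_eq
    rw [lp.norm_eq_tsum_rpow (by norm_num : 0 < (1 : ENNReal).toReal),
      lp.norm_eq_tsum_rpow (by norm_num : 0 < (1 : ENNReal).toReal)]
    congr 1
    exact e.tsum_eq (fun x => ‖f x‖ ^ (1 : ENNReal).toReal)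
  · exact LinearMap.mkContinuous_norm_le _ zero_le_one _

end Pool.Agent.Q223.RO
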